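import Mathlib

set_option autoImplicit false

namespace Pool.Agent.Lib.MP_01798d_co

open Finset

variable {X : Type*} [DecidableEq X]

def ind (S : Finset X) (x : X) : ℝ := if x ∈ S then 1 else 0

def dl (S : Finset X) (x y : X) : ℝ := |ind S x - ind S y|

theorem dl_nonneg (S : Finset X) (x y : X) : 0 ≤ dl S x y := abs_nonneg _

theorem dl_symm (S : Finset X) (x y : X) : dl S x y = dl S y x := abs_sub_comm _ _

theorem dl_self (S : Finset X) (x : X) : dl S x x = 0 := by simp [dl]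

theorem dl_compl [Fintype X] (S : Finset X) (x y : X) : dl Sᶜ x y = dl S x y := by
  unfold dl ind
  by_cases hx : x ∈ S <;> by_cases hy : y ∈ S <;> simp [hx, hy]

open Classical in
noncomputable def supp [Fintype X] (h : X → ℝ) : Finset X := univ.filter (fun x => 0 < h x)

theorem layer [Fintype X] (h : X → ℝ) (hh : ∀ x, 0 ≤ h x) (hne : (supp h).Nonempty) :
    ∃ (c : ℝ) (h' : X → ℝ), 0 < c ∧ (∀ x, 0 ≤ h' x) ∧ (∀ x, h x = h' x + c * ind (supp h) x) ∧
      supp h' ⊂ supp h := by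
  obtain ⟨x0, hx0, hmin⟩ := Finset.exists_min_image (supp h) h hne
  have hpos : 0 < h x0 := by simpa [supp] using hx0
  refine ⟨h x0, fun x => h x - h x0 * ind (supp h) x, hpos, ?_, fun x => by ring, ?_⟩
  · intro x
    by_cases hx : x ∈ supp h
    · simp [ind, hx, hmin x hx]
    · simp [ind, hx, hh x]
  · rw [Finset.ssubset_iff_of_subset]
    · exact ⟨x0, hx0, by simp [supp, ind, hpos]⟩
    · intro x hx
      by_contra hn
      have h1 := (Finset.mem_filter.1 hx).2
      simp only [ind, hn, if_false, mul_zero, sub_zero] at h1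
      exact hn (Finset.mem_filter.2 ⟨Finset.mem_univ _, h1⟩)

omit [DecidableEq X] in
theorem eq_zero_of_not_mem_supp [Fintype X] {h : X → ℝ} (hh : ∀ x, 0 ≤ h x) {x : X}
    (hx : x ∉ supp h) : h x = 0 := by
  simp only [supp, Finset.mem_filter, Finset.mem_univ, true_and, not_lt] at hx
  exact le_antisymm hx (hh x)

theorem cone_of_nonneg [Fintype X] : ∀ (k : ℕ) (h : X → ℝ), (∀ x, 0 ≤ h x) → (supp h).card = k →
    ∃ l : Finset X → ℝ, (∀ S, 0 ≤ l S) ∧ ∀ x y, |h x - h y| = ∑ S, l S * dl S x y := by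
  intro k
  induction k using Nat.strong_induction_on with
  | _ k ih =>
    intro h hh hk
    rcases (supp h).eq_empty_or_nonempty with he | hne
    · refine ⟨fun _ => 0, fun _ => le_rfl, fun x y => ?_⟩
      simp [eq_zero_of_not_mem_supp hh (x := x) (by simp [he]),
        eq_zero_of_not_mem_supp hh (x := y) (by simp [he])]
    · obtain ⟨c, h', hc, hh', he, hs⟩ := layer h hh hne
      obtain ⟨l, hl, hd⟩ := ih _ (hk ▸ Finset.card_lt_card hs) h' hh' rfl
      refine ⟨fun S => l S + if S = supp h then c else 0, fun S => ?_, fun x y => ?_⟩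
      · have := hl S
        dsimp only
        split_ifs <;> linarith
      · simp only [add_mul, Finset.sum_add_distrib, ← hd, ite_mul, zero_mul, Finset.sum_ite_eq',
          Finset.mem_univ, if_true]
        have z : ∀ x, x ∉ supp h → h' x = 0 := fun x hx =>
          eq_zero_of_not_mem_supp hh' (fun h1 => hx (hs.subset h1))
        rw [he x, he y]
        unfold dl ind
        by_cases hx : x ∈ supp h <;> by_cases hy : y ∈ supp h
        · simp [hx, hy]
        · simp only [hx, hy, if_true, if_false, z y hy]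
          simp [abs_of_nonneg (hh' x), abs_of_nonneg (add_nonneg (hh' x) hc.le)]
        · simp only [hx, hy, if_true, if_false, z x hx]
          simp [abs_of_nonneg (hh' y), abs_of_nonneg (add_nonneg (hh' y) hc.le), -neg_add_rev]
        · simp [hx, hy]

theorem cone_of_embed [Fintype X] {r : ℕ} (φ : X → Fin r → ℝ) :
    ∃ l : Finset X → ℝ, (∀ S, 0 ≤ l S) ∧
      ∀ x y, ∑ k, |φ x k - φ y k| = ∑ S, l S * dl S x y := by
  have : ∀ k : Fin r, ∃ l : Finset X → ℝ, (∀ S, 0 ≤ l S) ∧
      ∀ x y, |φ x k - φ y k| = ∑ S, l S * dl S x y := by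
    intro k
    obtain ⟨l, h1, h2⟩ := cone_of_nonneg _ (fun x => φ x k + ∑ z, |φ z k|) (fun x => by
      have h1 := Finset.single_le_sum (f := fun z => |φ z k|) (fun z _ => abs_nonneg _)
        (Finset.mem_univ x)
      have h2 := neg_abs_le (φ x k)
      linarith) rfl
    exact ⟨l, h1, fun x y => by rw [← h2]; congr 1; ring⟩
  choose l h1 h2 using this
  refine ⟨fun S => ∑ k, l k S, fun S => Finset.sum_nonneg (fun k _ => h1 k S), fun x y => ?_⟩
  simp only [h2, Finset.sum_mul]
  exact Finset.sum_comm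

def Rep (x0 : X) (d : X → X → ℝ) (k : ℕ) : Prop :=
  ∃ (g : Fin k → Finset X) (w : Fin k → ℝ) (w0 : ℝ), (∀ j, x0 ∈ g j) ∧ (∀ j, 0 ≤ w j) ∧ 0 ≤ w0 ∧
    ∀ x y, d x y = w0 * dl {x0} x y + ∑ j, w j * dl (g j) x y

theorem Rep.succ {x0 : X} {d : X → X → ℝ} {k : ℕ} (h : Rep x0 d k) : Rep x0 d (k + 1) := by
  obtain ⟨g, w, w0, h1, h2, h3, h4⟩ := h
  refine ⟨Fin.cons {x0} g, Fin.cons 0 w, w0, ?_, ?_, h3, ?_⟩
  · intro j; refine Fin.cases ?_ (fun j => ?_) j <;> simp [h1]
  · intro j; refine Fin.cases ?_ (fun j => ?_) j <;> simp [h2]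
  · intro x y; simp [Fin.sum_univ_succ, h4]

theorem rep_drop {x0 : X} {d : X → X → ℝ} {k : ℕ} (g : Fin (k + 1) → Finset X)
    (w : Fin (k + 1) → ℝ) (w0 : ℝ) (h1 : ∀ j, x0 ∈ g j) (h2 : ∀ j, 0 ≤ w j) (h3 : 0 ≤ w0)
    (h4 : ∀ x y, d x y = w0 * dl {x0} x y + ∑ j, w j * dl (g j) x y) (j : Fin (k + 1))
    (hj : ∀ x y, w j * dl (g j) x y = 0) : Rep x0 d k :=
  ⟨fun i => g (j.succAbove i), fun i => w (j.succAbove i), w0, fun _ => h1 _, fun _ => h2 _, h3,
    fun x y => by rw [h4, Fin.sum_univ_succAbove _ j, hj, zero_add]⟩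

theorem exists_relation [Fintype X] {ι : Type*} [Fintype ι] (g : ι → Finset X)
    (h : (Fintype.card X).choose 2 < Fintype.card ι) :
    ∃ μ : ι → ℝ, (∀ x y, ∑ i, μ i * dl (g i) x y = 0) ∧ ∃ i, μ i ≠ 0 := by
  let v : ι → ({a : Sym2 X // ¬ a.IsDiag} → ℝ) := fun i e =>
    Sym2.lift ⟨fun x y => dl (g i) x y, fun x y => dl_symm _ _ _⟩ e.1
  have hn : ¬ LinearIndependent ℝ v := by
    intro hl
    have := hl.fintype_card_le_finrank
    rw [Module.finrank_fintype_fun_eq_card, Sym2.card_subtype_not_diag] at this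
    omega
  obtain ⟨μ, h1, h2⟩ := Fintype.not_linearIndependent_iff.1 hn
  refine ⟨μ, fun x y => ?_, h2⟩
  by_cases hxy : x = y
  · subst hxy; simp [dl_self]
  · have := congrFun h1 ⟨s(x, y), by simpa using hxy⟩
    simpa [v, Finset.sum_apply] using this

theorem Rep.reduce [Fintype X] {x0 x1 : X} (hx : x1 ≠ x0) {d : X → X → ℝ} {k : ℕ}
    (hk : (Fintype.card X).choose 2 ≤ k + 1) (h : Rep x0 d (k + 1)) : Rep x0 d k := by
  obtain ⟨g, w, w0, h1, h2, h3, h4⟩ := h
  have key : ∃ (μ0 : ℝ) (μ : Fin (k + 1) → ℝ), μ0 ≤ 0 ∧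
      (∀ x y, μ0 * dl {x0} x y + ∑ j, μ j * dl (g j) x y = 0) ∧ (μ0 ≠ 0 ∨ ∃ j, μ j ≠ 0) := by
    obtain ⟨μ, e1, i, e2⟩ := exists_relation (ι := Option (Fin (k + 1)))
      (fun o => o.elim {x0} g) (by simp; omega)
    simp only [Fintype.sum_option, Option.elim] at e1
    have e3 : μ none ≠ 0 ∨ ∃ j, μ (some j) ≠ 0 := by
      cases i with
      | none => exact Or.inl e2
      | some j => exact Or.inr ⟨j, e2⟩
    rcases le_total (μ none) 0 with hs | hs
    · exact ⟨μ none, fun j => μ (some j), hs, e1, e3⟩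
    · refine ⟨-μ none, fun j => -μ (some j), by linarith, fun x y => ?_, by simpa using e3⟩
      have := e1 x y
      simp only [neg_mul, Finset.sum_neg_distrib]
      linarith
  obtain ⟨μ0, μ, m0, e1, e2⟩ := key
  by_cases hp : ∃ j, 0 < μ j
  · obtain ⟨j, hj, hmin⟩ := Finset.exists_min_image (univ.filter (fun j => 0 < μ j))
      (fun j => w j / μ j) (by obtain ⟨j, hj⟩ := hp; exact ⟨j, by simpa using hj⟩)
    simp only [Finset.mem_filter, Finset.mem_univ, true_and] at hj hmin
    have ht : 0 ≤ w j / μ j := div_nonneg (h2 j) hj.le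
    refine rep_drop g (fun i => w i - w j / μ j * μ i) (w0 - w j / μ j * μ0) h1 ?_ ?_ ?_ j ?_
    · intro i
      by_cases hi : 0 < μ i
      · have := hmin i hi
        rw [le_div_iff₀ hi] at this
        linarith
      · have := mul_nonpos_of_nonneg_of_nonpos ht (not_lt.1 hi)
        linarith [h2 i]
    · have := mul_nonpos_of_nonneg_of_nonpos ht m0
      linarith
    · intro x y
      have e := e1 x y
      rw [h4]
      simp only [sub_mul, Finset.sum_sub_distrib, mul_assoc, ← Finset.mul_sum]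
      linear_combination (w j / μ j) * e
    · intro x y
      have : w j - w j / μ j * μ j = 0 := by field_simp; ring
      simp only [this, zero_mul]
  · push Not at hp
    have z : ∀ x y, μ0 * dl {x0} x y = 0 ∧ ∀ j, μ j * dl (g j) x y = 0 := by
      intro x y
      have a1 : μ0 * dl {x0} x y ≤ 0 := mul_nonpos_of_nonpos_of_nonneg m0 (dl_nonneg _ _ _)
      have a2 : ∀ j ∈ (univ : Finset (Fin (k + 1))), μ j * dl (g j) x y ≤ 0 := fun j _ =>
        mul_nonpos_of_nonpos_of_nonneg (hp j) (dl_nonneg _ _ _)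
      have a3 := Finset.sum_nonpos a2
      have a4 := e1 x y
      refine ⟨by linarith, fun j => ?_⟩
      exact (Finset.sum_eq_zero_iff_of_nonpos a2).1 (by linarith) j (Finset.mem_univ _)
    rcases e2 with e2 | ⟨j, e2⟩
    · have := (z x0 x1).1
      simp [dl, ind, hx, e2] at this
    · refine rep_drop g w w0 h1 h2 h3 h4 j (fun x y => ?_)
      have := (z x y).2 j
      rw [(mul_eq_zero.1 this).resolve_left e2, mul_zero]

theorem Rep.embed {x0 : X} {d : X → X → ℝ} {m : ℕ} (h : Rep x0 d (m + 1)) :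
    ∃ φ : X → Fin (m + 1) → ℝ, ∀ x y, ∑ k, |φ x k - φ y k| = d x y := by
  obtain ⟨g, w, w0, h1, h2, h3, h4⟩ := h
  refine ⟨fun x j => w j * ind (g j) x + if j = 0 then w0 * ind {x0} x else 0, fun x y => ?_⟩
  rw [h4, Fin.sum_univ_succ, Fin.sum_univ_succ (fun j => w j * dl (g j) x y), ← add_assoc]
  congr 1
  · have a := h1 0
    have b := h2 0
    simp only [if_true, dl, ind, Finset.mem_singleton]
    by_cases hx : x = x0 <;> by_cases hy : y = x0
    · simp [hx, hy]
    · by_cases hy' : y ∈ g 0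
      · simp [hx, hy, a, hy', abs_of_nonneg h3]
      · simp [hx, hy, a, hy', abs_of_nonneg (add_nonneg h3 b), add_comm]
    · by_cases hx' : x ∈ g 0
      · simp [hx, hy, a, hx', abs_of_nonneg h3]
      · simp [hx, hy, a, hx', abs_of_nonneg (add_nonneg h3 b), add_comm, -neg_add_rev]
    · simp [hx, hy, ← mul_sub, abs_mul, abs_of_nonneg b, -mul_ite]
  · refine Finset.sum_congr rfl (fun j _ => ?_)
    simp [Fin.succ_ne_zero, ← mul_sub, abs_mul, abs_of_nonneg (h2 _), dl]

theorem upper_bound [Fintype X] (hX : 3 ≤ Fintype.card X) {r : ℕ} (φ : X → Fin r → ℝ) :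
    ∃ ψ : X → Fin ((Fintype.card X).choose 2 - 1) → ℝ,
      ∀ x y, ∑ k, |ψ x k - ψ y k| = ∑ k, |φ x k - φ y k| := by
  obtain ⟨x0, x1, hx⟩ := Fintype.exists_pair_of_one_lt_card (α := X) (by omega)
  obtain ⟨l, hl, hd⟩ := cone_of_embed φ
  have h0 : Rep x0 (fun x y => ∑ k, |φ x k - φ y k|) (Fintype.card (Finset X)) := by
    let e := (Fintype.equivFin (Finset X)).symm
    refine ⟨fun j => if x0 ∈ e j then e j else (e j)ᶜ, fun j => l (e j), 0, ?_, fun j => hl _,
      le_rfl, fun x y => ?_⟩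
    · intro j
      by_cases h : x0 ∈ e j <;> simp [h]
    · simp only [zero_mul, zero_add, hd]
      rw [← Equiv.sum_comp e]
      refine Finset.sum_congr rfl (fun j _ => ?_)
      split_ifs
      · rfl
      · rw [dl_compl]
  have up : ∀ a k, Rep x0 (fun x y => ∑ k, |φ x k - φ y k|) a →
      Rep x0 (fun x y => ∑ k, |φ x k - φ y k|) (a + k) := by
    intro a k h
    induction k with
    | zero => exact h
    | succ k ih => exact ih.succ
  have h3 : 3 ≤ (Fintype.card X).choose 2 := by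
    have := Nat.choose_le_choose 2 hX
    simpa using this
  have down : ∀ k, Rep x0 (fun x y => ∑ k, |φ x k - φ y k|) ((Fintype.card X).choose 2 - 1 + k) →
      Rep x0 (fun x y => ∑ k, |φ x k - φ y k|) ((Fintype.card X).choose 2 - 1) := by
    intro k
    induction k with
    | zero => exact id
    | succ k ih => exact fun h => ih (Rep.reduce hx.symm (by omega) h)
  have h1 := down (Fintype.card (Finset X)) (by rw [add_comm]; exact up _ _ h0)
  obtain ⟨m, hm⟩ : ∃ m, (Fintype.card X).choose 2 - 1 = m + 1 := ⟨(Fintype.card X).choose 2 - 2, by omega⟩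
  rw [hm] at h1 ⊢
  exact h1.embed

end Pool.Agent.Lib.MP_01798d_co
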