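import Mathlib
import Pool.Agent.Lib.MP_01798d_co.Upper

set_option autoImplicit false

namespace Pool.Agent.Lib.MP_01798d_co

open Finset

variable {Y : Type} [DecidableEq Y] [Fintype Y]

def Pq (a : Y → Y → ℝ) (S : Finset Y) : ℝ := ∑ i ∈ S, ∑ j ∈ S, a i j

theorem Pq_eq (a : Y → Y → ℝ) (S : Finset Y) :
    ∑ i, ∑ j, a i j * (ind S i * ind S j) = Pq a S := by
  have : ∀ i j, a i j * (ind S i * ind S j) = if i ∈ S then (if j ∈ S then a i j else 0) else 0 := by
    intro i j
    unfold ind
    split_ifs <;> simp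
  simp [this, Pq, Finset.sum_ite_irrel]

theorem min_layer {h h' : Y → ℝ} {c : ℝ} (hh : ∀ x, 0 ≤ h x) (hh' : ∀ x, 0 ≤ h' x)
    (he : ∀ x, h x = h' x + c * ind (supp h) x) (hs : supp h' ⊆ supp h) (i j : Y) :
    min (h i) (h j) = min (h' i) (h' j) + c * (ind (supp h) i * ind (supp h) j) := by
  have z : ∀ x, x ∉ supp h → h' x = 0 := fun x hx =>
    eq_zero_of_not_mem_supp hh' (fun h1 => hx (hs h1))
  by_cases hi : i ∈ supp h
  · by_cases hj : j ∈ supp h
    · rw [he i, he j]
      simp [ind, hi, hj, min_add_add_right]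
    · rw [eq_zero_of_not_mem_supp hh hj, z j hj]
      simp [ind, hj, hh i, hh' i]
  · rw [eq_zero_of_not_mem_supp hh hi, z i hi]
    simp [ind, hi, hh j, hh' j]

theorem lam_nonneg (a : Y → Y → ℝ) (hV : ∀ S, 0 ≤ Pq a S)
    (hN : ∀ S T, S.Nonempty → Pq a S = 0 → Pq a T = 0 → S ⊆ T → S = T) :
    ∀ (k : ℕ) (h : Y → ℝ), (∀ x, 0 ≤ h x) → (supp h).card = k →
      0 ≤ ∑ i, ∑ j, a i j * min (h i) (h j) ∧
      (∑ i, ∑ j, a i j * min (h i) (h j) = 0 → Pq a (supp h) = 0 ∧
        ∃ c : ℝ, ∀ i j, min (h i) (h j) = c * (ind (supp h) i * ind (supp h) j)) := by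
  intro k
  induction k using Nat.strong_induction_on with
  | _ k ih =>
    intro h hh hk
    rcases (supp h).eq_empty_or_nonempty with he | hne
    · have z : ∀ x, h x = 0 := fun x => eq_zero_of_not_mem_supp hh (by simp [he])
      simp only [z, he, Pq]
      exact ⟨by simp, fun _ => ⟨by simp, 0, by simp⟩⟩
    · obtain ⟨c, h', hc, hh', he, hs⟩ := layer h hh hne
      obtain ⟨i1, i2⟩ := ih _ (hk ▸ Finset.card_lt_card hs) h' hh' rfl
      have e : ∑ i, ∑ j, a i j * min (h i) (h j) =
          ∑ i, ∑ j, a i j * min (h' i) (h' j) + c * Pq a (supp h) := by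
        rw [← Pq_eq]
        simp only [min_layer hh hh' he hs.subset, Finset.mul_sum, ← Finset.sum_add_distrib]
        refine Finset.sum_congr rfl (fun i _ => Finset.sum_congr rfl (fun j _ => by ring))
      have p := mul_nonneg hc.le (hV (supp h))
      refine ⟨by linarith, fun h0 => ?_⟩
      have p1 : Pq a (supp h) = 0 := by
        have : c * Pq a (supp h) = 0 := by linarith
        exact (mul_eq_zero.1 this).resolve_left hc.ne'
      obtain ⟨p2, -⟩ := i2 (by linarith)
      refine ⟨p1, c, fun i j => ?_⟩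
      rcases (supp h').eq_empty_or_nonempty with he' | hne'
      · have z : ∀ x, h' x = 0 := fun x => eq_zero_of_not_mem_supp hh' (by simp [he'])
        rw [min_layer hh hh' he hs.subset]
        simp [z]
      · exact absurd (hN _ _ hne' p2 p1 hs.subset) hs.ne

noncomputable def cov (g : Y → ℝ) (i j : Y) : ℝ := (|g i| + |g j| - |g i - g j|) / 2

omit [DecidableEq Y] [Fintype Y] in
theorem cov_eq (g : Y → ℝ) (i j : Y) :
    cov g i j = min (max (g i) 0) (max (g j) 0) + min (max (-g i) 0) (max (-g j) 0) := by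
  unfold cov
  simp only [abs_eq_max_neg, max_def, min_def]
  split_ifs <;> linarith

theorem coord (a : Y → Y → ℝ) (hV : ∀ S, 0 ≤ Pq a S)
    (hN : ∀ S T, S.Nonempty → Pq a S = 0 → Pq a T = 0 → S ⊆ T → S = T)
    (hI : ∀ S T, S.Nonempty → T.Nonempty → Pq a S = 0 → Pq a T = 0 → ¬ Disjoint S T)
    (g : Y → ℝ) : 0 ≤ ∑ i, ∑ j, a i j * cov g i j ∧
      (∑ i, ∑ j, a i j * cov g i j = 0 →
        ∃ (S : Finset Y) (c : ℝ), ∀ i j, cov g i j = c * (ind S i * ind S j)) := by
  obtain ⟨p1, p2⟩ := lam_nonneg a hV hN _ (fun x => max (g x) 0) (fun x => le_max_right _ _) rfl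
  obtain ⟨q1, q2⟩ := lam_nonneg a hV hN _ (fun x => max (-g x) 0) (fun x => le_max_right _ _) rfl
  have e : ∑ i, ∑ j, a i j * cov g i j =
      ∑ i, ∑ j, a i j * min (max (g i) 0) (max (g j) 0) +
      ∑ i, ∑ j, a i j * min (max (-g i) 0) (max (-g j) 0) := by
    simp only [cov_eq, mul_add, Finset.sum_add_distrib]
  refine ⟨by linarith, fun h0 => ?_⟩
  obtain ⟨r1, c1, s1⟩ := p2 (by linarith)
  obtain ⟨r2, c2, s2⟩ := q2 (by linarith)
  rcases (supp (fun x => max (g x) 0)).eq_empty_or_nonempty with e1 | n1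
  · refine ⟨supp (fun x => max (-g x) 0), c2, fun i j => ?_⟩
    rw [cov_eq, s1, s2, e1]
    simp [ind]
  rcases (supp (fun x => max (-g x) 0)).eq_empty_or_nonempty with e2 | n2
  · refine ⟨supp (fun x => max (g x) 0), c1, fun i j => ?_⟩
    rw [cov_eq, s1, s2, e2]
    simp [ind]
  exfalso
  refine hI _ _ n1 n2 r1 r2 (Finset.disjoint_left.2 (fun x h1 h2 => ?_))
  simp only [supp, Finset.mem_filter, Finset.mem_univ, true_and, lt_max_iff, lt_self_iff_false,
    or_false] at h1 h2
  linarith

theorem exists_pos_avoid {ι κ : Type} [Fintype ι] [Fintype κ] (u : κ → ι → ℝ)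
    (hu : ∀ F, ∃ i, u F i ≠ 0) : ∃ l : ι → ℝ, (∀ i, 0 < l i) ∧ ∀ F, ∑ i, l i * u F i ≠ 0 := by
  classical
  by_contra hc
  push Not at hc
  let L : κ → ((ι → ℝ) →ₗ[ℝ] ℝ) := fun F =>
    { toFun := fun l => ∑ i, l i * u F i
      map_add' := fun x y => by simp [add_mul, Finset.sum_add_distrib]
      map_smul' := fun c x => by simp [Finset.mul_sum, mul_assoc] }
  have h0 : ∀ F, MeasureTheory.volume (LinearMap.ker (L F) : Set (ι → ℝ)) = 0 := by
    intro F
    apply MeasureTheory.Measure.addHaar_submodule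
    intro ht
    obtain ⟨i, hi⟩ := hu F
    have : Pi.single i 1 ∈ LinearMap.ker (L F) := by rw [ht]; trivial
    simp [L, Pi.single_apply] at this
    exact hi this
  have h1 : {l : ι → ℝ | ∀ i, 0 < l i} ⊆ ⋃ F, (LinearMap.ker (L F) : Set (ι → ℝ)) := by
    intro l hl
    obtain ⟨F, hF⟩ := hc l hl
    exact Set.mem_iUnion.2 ⟨F, hF⟩
  have h2 : IsOpen {l : ι → ℝ | ∀ i, 0 < l i} := by
    rw [Set.ofPred_forall]
    exact isOpen_iInter_of_finite (fun i => isOpen_lt continuous_const (continuous_apply i))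
  have h3 := h2.measure_pos MeasureTheory.volume ⟨fun _ => 1, fun _ => one_pos⟩
  exact h3.ne' (MeasureTheory.measure_mono_null h1 (MeasureTheory.measure_iUnion_null h0))

theorem exists_kernel {m : ℕ} (hm : m + 1 < (Fintype.card Y + 1).choose 2) (o0 o1 : Y)
    (F : Fin m → Finset Y) : ∃ w : Y → Y → ℝ, (∀ i j, w i j = w j i) ∧ w o0 o1 = 0 ∧
      (∀ k, Pq w (F k) = 0) ∧ ∃ i j, w i j ≠ 0 := by
  let L : (Sym2 Y → ℝ) →ₗ[ℝ] (Option (Fin m) → ℝ) :=
    { toFun := fun w o => o.elim (w s(o0, o1)) (fun k => Pq (fun i j => w s(i, j)) (F k))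
      map_add' := fun x y => by
        funext o; cases o <;> simp [Pq, Finset.sum_add_distrib]
      map_smul' := fun c x => by
        funext o; cases o <;> simp [Pq, Finset.mul_sum] }
  have h : LinearMap.ker L ≠ ⊥ := by
    apply LinearMap.ker_ne_bot_of_finrank_lt
    simpa [Sym2.card] using hm
  obtain ⟨w, h1, h2⟩ := Submodule.exists_mem_ne_zero_of_ne_bot h
  rw [LinearMap.mem_ker] at h1
  refine ⟨fun i j => w s(i, j), fun i j => congrArg w Sym2.eq_swap, congrFun h1 none,
    fun k => congrFun h1 (some k), ?_⟩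
  by_contra hc
  push Not at hc
  apply h2
  funext e
  induction e using Sym2.ind with
  | _ i j => exact hc i j

theorem lower_abstract (a : Y → Y → ℝ) (hV : ∀ S, 0 ≤ Pq a S)
    (hN : ∀ S T, S.Nonempty → Pq a S = 0 → Pq a T = 0 → S ⊆ T → S = T)
    (hI : ∀ S T, S.Nonempty → T.Nonempty → Pq a S = 0 → Pq a T = 0 → ¬ Disjoint S T)
    (o0 o1 : Y) (ho : o0 ≠ o1)
    (hR : ∀ w : Y → Y → ℝ, (∀ i j, w i j = w j i) → w o0 o1 = 0 →
      (∀ S, Pq a S = 0 → Pq w S = 0) → ∀ i j, w i j = 0)
    (m : ℕ) (hm : m + 1 < (Fintype.card Y + 1).choose 2) :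
    ∃ φ : Option Y → Finset Y → ℝ, Function.Injective φ ∧ ∀ ψ : Option Y → Fin m → ℝ,
      ¬ ∀ x y, ∑ k, |ψ x k - ψ y k| = ∑ S, |φ x S - φ y S| := by
  classical
  choose w w1 w2 w3 w4 using exists_kernel hm o0 o1
  obtain ⟨l, l1, l2⟩ := exists_pos_avoid
    (fun (F : Fin m → Finset Y) (S : Finset Y) => if Pq a S = 0 then Pq (w F) S else 0) (by
      intro F
      by_contra hc
      push Not at hc
      obtain ⟨i, j, hij⟩ := w4 F
      exact hij (hR (w F) (w1 F) (w2 F) (fun S hS => by simpa [hS] using hc S) i j))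
  let l' : Finset Y → ℝ := fun S => if Pq a S = 0 then l S else 0
  have l'0 : ∀ S, 0 ≤ l' S := fun S => by
    simp only [l']; split_ifs; exacts [(l1 S).le, le_rfl]
  refine ⟨fun x S => l' S * x.elim 0 (ind S), ?_, fun ψ hψ => ?_⟩
  · have key : ∀ x y : Option Y, (∀ S, l' S * x.elim 0 (ind S) = l' S * y.elim 0 (ind S)) →
        ∀ i, (if x = some i then (1 : ℝ) else 0) - (if y = some i then 1 else 0) = 0 := by
      intro x y h i
      have := hR (fun u v => if u = v then
        (if x = some u then (1 : ℝ) else 0) - (if y = some u then 1 else 0) else 0)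
        (fun u v => by by_cases huv : u = v; · subst huv; rfl
                       · simp [huv, Ne.symm huv]) (by simp [ho]) (fun S hS => by
          have h1 := h S
          simp only [l', hS, if_true] at h1
          have h2 := mul_left_cancel₀ (l1 S).ne' h1
          have h3 : ∀ z : Option Y, ∑ u ∈ S, (if z = some u then (1 : ℝ) else 0) =
              z.elim 0 (ind S) := by
            intro z
            cases z with
            | none => simp
            | some v => simp [ind]
          simp only [Pq, Finset.sum_ite_eq]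
          rw [Finset.sum_congr rfl (fun u hu => if_pos hu), Finset.sum_sub_distrib, h3, h3, h2,
            sub_self]) i i
      simpa using this
    intro x y h
    have h1 := key x y (fun S => congrFun h S)
    cases x with
    | none =>
      cases y with
      | none => rfl
      | some j => simpa using h1 j
    | some i =>
      have := h1 i
      by_contra hne
      simp [Ne.symm hne] at this
  · let g : Fin m → Y → ℝ := fun k i => ψ (some i) k - ψ none k
    have e1 : ∀ i j, ∑ k, cov (g k) i j = ∑ S, l' S * (ind S i * ind S j) := by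
      intro i j
      have a1 := hψ (some i) none
      have a2 := hψ (some j) none
      have a3 := hψ (some i) (some j)
      have b : ∀ S, l' S * (ind S i * ind S j) = (|l' S * ind S i - l' S * 0| +
          |l' S * ind S j - l' S * 0| - |l' S * ind S i - l' S * ind S j|) / 2 := by
        intro S
        have := l'0 S
        unfold ind
        split_ifs <;> simp [abs_of_nonneg this]
      simp only [b, cov, g, ← Finset.sum_div, Finset.sum_sub_distrib, Finset.sum_add_distrib,
        sub_sub_sub_cancel_right]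
      simp only [Option.elim] at a1 a2 a3
      rw [a1, a2, a3]
    have e2 : ∀ b : Y → Y → ℝ, ∑ k, ∑ i, ∑ j, b i j * cov (g k) i j = ∑ S, l' S * Pq b S := by
      intro b
      calc ∑ k, ∑ i, ∑ j, b i j * cov (g k) i j = ∑ i, ∑ j, b i j * ∑ k, cov (g k) i j := by
            rw [Finset.sum_comm]
            refine Finset.sum_congr rfl (fun i _ => ?_)
            rw [Finset.sum_comm]
            simp only [Finset.mul_sum]
        _ = ∑ i, ∑ j, ∑ S, l' S * (b i j * (ind S i * ind S j)) := by
            simp only [e1, Finset.mul_sum]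
            refine Finset.sum_congr rfl (fun i _ => Finset.sum_congr rfl (fun j _ =>
              Finset.sum_congr rfl (fun S _ => by ring)))
        _ = ∑ S, l' S * Pq b S := by
            simp only [← Pq_eq, Finset.mul_sum]
            rw [Finset.sum_comm (γ := Finset Y)]
            refine Finset.sum_congr rfl (fun i _ => ?_)
            rw [Finset.sum_comm]
    have e3 : ∑ S, l' S * Pq a S = 0 := by
      refine Finset.sum_eq_zero (fun S _ => ?_)
      simp only [l']
      split_ifs with h <;> simp [h]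
    have e4 := (Finset.sum_eq_zero_iff_of_nonneg
      (fun k _ => (coord a hV hN hI (g k)).1)).1 ((e2 a).trans e3)
    choose F c hF using fun k => (coord a hV hN hI (g k)).2 (e4 k (Finset.mem_univ _))
    apply l2 F
    have e5 := e2 (w F)
    have e6 : ∀ k, ∑ i, ∑ j, w F i j * cov (g k) i j = 0 := by
      intro k
      have : ∑ i, ∑ j, w F i j * cov (g k) i j = c k * Pq (w F) (F k) := by
        simp only [hF, ← Pq_eq, Finset.mul_sum]
        refine Finset.sum_congr rfl (fun i _ => Finset.sum_congr rfl (fun j _ => by ring))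
      rw [this, w3, mul_zero]
    simp only [e6, Finset.sum_const_zero] at e5
    refine Eq.trans ?_ e5.symm
    refine Finset.sum_congr rfl (fun S _ => ?_)
    simp only [l']
    split_ifs <;> simp

end Pool.Agent.Lib.MP_01798d_co
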