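import Mathlib
import Pool.Agent.Lib.MP_01798d_co.Lower

set_option autoImplicit false

namespace Pool.Agent.Lib.MP_01798d_co

open Finset

def cx {p : ℕ} {R : Type} [Ring R] (A : Fin p → Fin p → R) (x : Fin p → Bool) : R :=
  ∑ i, ∑ j, if x i && x j then A i j else 0

def bx {p : ℕ} {R : Type} [Ring R] (b0 : R) (b : Fin p → R) (x : Fin p → Bool) : R :=
  b0 + ∑ i, if x i then b i else 0

def mkS {p M : ℕ} (x : Fin p → Bool) (X : Finset (Fin M)) : Finset (Fin p ⊕ Fin M) :=
  (univ.filter (fun i => x i = true)).disjSum X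

theorem exists_mk {p M : ℕ} (S : Finset (Fin p ⊕ Fin M)) : ∃ x X, S = mkS x X := by
  refine ⟨fun i => decide (Sum.inl i ∈ S), S.toRight, ?_⟩
  ext a
  cases a <;> simp [mkS]

theorem Pq_mk {p M : ℕ} (w : Fin p ⊕ Fin M → Fin p ⊕ Fin M → ℝ) (x : Fin p → Bool)
    (X : Finset (Fin M)) : Pq w (mkS x X) = cx (fun i j => w (.inl i) (.inl j)) x +
      ∑ k ∈ X, (∑ i, if x i then w (.inl i) (.inr k) + w (.inr k) (.inl i) else 0) +
      ∑ k ∈ X, ∑ l ∈ X, w (.inr k) (.inr l) := by
  simp only [Pq, mkS, Finset.sum_disjSum, Finset.sum_add_distrib, cx, Finset.sum_filter]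
  have e1 : ∑ i, ∑ j, (if x i && x j then w (.inl i) (.inl j) else 0) =
      ∑ i, if x i = true then ∑ j, (if x j = true then w (.inl i) (.inl j) else 0) else 0 := by
    refine Finset.sum_congr rfl (fun i _ => ?_)
    cases x i <;> simp
  have e2 : ∑ k ∈ X, (∑ i, if x i then w (.inl i) (.inr k) + w (.inr k) (.inl i) else 0) =
      (∑ i, if x i = true then ∑ k ∈ X, w (.inl i) (.inr k) else 0) +
      ∑ k ∈ X, ∑ i, if x i = true then w (.inr k) (.inl i) else 0 := by
    rw [Finset.sum_comm, Finset.sum_comm (s := X), ← Finset.sum_add_distrib]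
    refine Finset.sum_congr rfl (fun i _ => ?_)
    cases x i <;> simp [Finset.sum_add_distrib]
  rw [e1, e2]
  ring

structure Data (p : ℕ) where
  A : Fin p → Fin p → ℤ
  b0 : ℤ
  b : Fin p → ℤ
  u : ℤ

def Data.val {p : ℕ} (G : Data p) (x : Fin p → Bool) (t : ℕ) : ℤ :=
  cx G.A x + t * (bx G.b0 G.b x + G.u * t)

def Data.a {p : ℕ} (G : Data p) (M : ℕ) : Fin p ⊕ Fin M → Fin p ⊕ Fin M → ℝ
  | .inl i, .inl j => G.A i j
  | .inl i, .inr _ => G.b i
  | .inr _, .inl _ => 0
  | .inr k, .inr l => G.u + if k = l then G.b0 else 0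

theorem Data.Pq_a {p M : ℕ} (G : Data p) (x : Fin p → Bool) (X : Finset (Fin M)) :
    Pq (G.a M) (mkS x X) = G.val x X.card := by
  rw [Pq_mk]
  have : ∀ k ∈ X, ∑ l ∈ X, G.a M (.inr k) (.inr l) = X.card * G.u + G.b0 := by
    intro k hk
    simp [Data.a, Finset.sum_add_distrib, hk]
  rw [Finset.sum_congr rfl this]
  simp [Data.a, Data.val, cx, bx]
  ring

theorem exists_avoid {M : ℕ} (T : Finset (Fin M)) (t : ℕ) (h : t + T.card ≤ M) :
    ∃ Z : Finset (Fin M), Z.card = t ∧ ∀ k ∈ T, k ∉ Z := by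
  obtain ⟨Z, h1, h2⟩ := Finset.exists_subset_card_eq (s := Tᶜ) (n := t) (by
    rw [Finset.card_compl, Fintype.card_fin]; omega)
  exact ⟨Z, h2, fun k hk hz => by simpa [hk] using h1 hz⟩

theorem Data.lower {p : ℕ} (G : Data p) (M0 M : ℕ) (hM : M0 ≤ M)
    (hV : ∀ x t, 0 ≤ G.val x t)
    (hX : ∀ x t x' t', G.val x t = 0 → G.val x' t' = 0 → ((∃ i, x i = true) ∨ t ≠ 0) →
      ((∃ i, x' i = true) ∨ t' ≠ 0) → (∃ i, x i = true ∧ x' i = true) ∧
        ((∀ i, x i = true → x' i = true) → t ≤ t' → x = x' ∧ t = t'))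
    (h1 : ∃ x t, G.val x t = 0 ∧ 2 ≤ t ∧ t + 2 ≤ M0)
    (h2 : ∀ (c0 D : ℝ) (c : Fin p → ℝ), (∀ x t, G.val x t = 0 → 1 ≤ t → t + 1 ≤ M0 →
      bx c0 c x + t * D = 0) → c0 = 0 ∧ D = 0 ∧ ∀ i, c i = 0)
    (h3 : ∀ (B : Fin p → Fin p → ℝ) (c0 : ℝ) (c : Fin p → ℝ), (∀ i j, B i j = B j i) →
      (∀ x t, G.val x t = 0 → t ≤ M0 → cx B x + t * bx c0 c x = 0) →
      (∀ i j, B i j = 0) ∧ c0 = 0 ∧ ∀ i, c i = 0)
    (m : ℕ) (hm : m + 1 < (p + M + 1).choose 2) :
    ∃ φ : Option (Fin p ⊕ Fin M) → Finset (Fin p ⊕ Fin M) → ℝ, Function.Injective φ ∧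
      ∀ ψ : Option (Fin p ⊕ Fin M) → Fin m → ℝ,
        ¬ ∀ x y, ∑ k, |ψ x k - ψ y k| = ∑ S, |φ x S - φ y S| := by
  obtain ⟨x1, t1, r1, r2, r3⟩ := h1
  have nz : ∀ (x : Fin p → Bool) (X : Finset (Fin M)), (mkS x X).Nonempty →
      (∃ i, x i = true) ∨ X.card ≠ 0 := by
    rintro x X ⟨a, ha⟩
    cases a with
    | inl i => left; exact ⟨i, by simpa [mkS] using ha⟩
    | inr k => right; exact (Finset.card_pos.2 ⟨k, by simpa [mkS] using ha⟩).ne'
  let o0 : Fin M := ⟨0, by omega⟩
  let o1 : Fin M := ⟨1, by omega⟩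
  have o01 : o0 ≠ o1 := by simp [o0, o1]
  refine lower_abstract (G.a M) ?_ ?_ ?_ (.inr o0) (.inr o1) (by simpa using o01) ?_ m
    (by simpa using hm)
  · intro S
    obtain ⟨x, X, rfl⟩ := exists_mk S
    rw [G.Pq_a]
    exact_mod_cast hV x _
  · intro S T hS a1 a2 hST
    obtain ⟨x, X, rfl⟩ := exists_mk S
    obtain ⟨x', X', rfl⟩ := exists_mk T
    rw [G.Pq_a] at a1 a2
    have hXX : X ⊆ X' := fun k hk => by
      simpa [mkS] using hST (show Sum.inr k ∈ mkS x X by simpa [mkS] using hk)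
    obtain ⟨e1, e2⟩ := (hX x _ x' _ (by exact_mod_cast a1) (by exact_mod_cast a2) (nz _ _ hS)
      (nz _ _ (hS.mono hST))).2 (fun i hi => by
        simpa [mkS] using hST (show Sum.inl i ∈ mkS x X by simpa [mkS] using hi))
      (Finset.card_le_card hXX)
    rw [e1, Finset.eq_of_subset_of_card_le hXX e2.ge]
  · intro S T hS hT a1 a2 hd
    obtain ⟨x, X, rfl⟩ := exists_mk S
    obtain ⟨x', X', rfl⟩ := exists_mk T
    rw [G.Pq_a] at a1 a2
    obtain ⟨i, i1, i2⟩ := (hX x _ x' _ (by exact_mod_cast a1) (by exact_mod_cast a2) (nz _ _ hS)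
      (nz _ _ hT)).1
    exact Finset.disjoint_left.1 hd (show Sum.inl i ∈ mkS x X by simpa [mkS] using i1)
      (by simpa [mkS] using i2)
  · intro w hs h0 hw
    let g : (Fin p → Bool) → Fin M → ℝ := fun x k =>
      ∑ i, if x i then w (.inl i) (.inr k) + w (.inr k) (.inl i) else 0
    let B : Fin M → Fin M → ℝ := fun k l => w (.inr k) (.inr l)
    have Bs : ∀ k l, B k l = B l k := fun k l => hs _ _
    have root : ∀ x (X : Finset (Fin M)), G.val x X.card = 0 →
        cx (fun i j => w (.inl i) (.inl j)) x + ∑ k ∈ X, g x k + ∑ k ∈ X, ∑ l ∈ X, B k l = 0 := by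
      intro x X h
      have := hw (mkS x X) (by rw [G.Pq_a, h]; simp)
      rwa [Pq_mk] at this
    have ins : ∀ x (Z : Finset (Fin M)) k, k ∉ Z → G.val x (Z.card + 1) = 0 →
        cx (fun i j => w (.inl i) (.inl j)) x + ∑ k ∈ Z, g x k + ∑ k ∈ Z, ∑ l ∈ Z, B k l +
          (g x k + B k k + 2 * ∑ l ∈ Z, B k l) = 0 := by
      intro x Z k hk h
      have := root x (insert k Z) (by rwa [Finset.card_insert_of_notMem hk])
      simp only [Finset.sum_insert hk, Finset.sum_add_distrib] at this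
      have e : ∑ l ∈ Z, B l k = ∑ l ∈ Z, B k l := Finset.sum_congr rfl (fun l _ => Bs _ _)
      linarith
    have dif : ∀ x (Z : Finset (Fin M)) k k', k ∉ Z → k' ∉ Z → G.val x (Z.card + 1) = 0 →
        g x k - g x k' + (B k k - B k' k') + 2 * ∑ l ∈ Z, (B k l - B k' l) = 0 := by
      intro x Z k k' hk hk' h
      have a1 := ins x Z k hk h
      have a2 := ins x Z k' hk' h
      rw [Finset.sum_sub_distrib]
      linarith
    have step1 : ∀ k k' l l', l ≠ k → l ≠ k' → l' ≠ k → l' ≠ k' →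
        B k l - B k' l = B k l' - B k' l' := by
      intro k k' l l' n1 n2 n3 n4
      obtain ⟨Z, z1, z2⟩ := exists_avoid {k, k', l, l'} (t1 - 2) (by
        have : ({k, k', l, l'} : Finset (Fin M)).card ≤ 4 := Finset.card_le_four
        omega)
      have zk := z2 k (by simp)
      have zk' := z2 k' (by simp)
      have zl := z2 l (by simp)
      have zl' := z2 l' (by simp)
      have a1 := dif x1 (insert l Z) k k' (by simp [zk, n1.symm]) (by simp [zk', n2.symm])
        (by rw [Finset.card_insert_of_notMem zl, z1, show t1 - 2 + 1 + 1 = t1 by omega]; exact r1)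
      have a2 := dif x1 (insert l' Z) k k' (by simp [zk, n3.symm]) (by simp [zk', n4.symm])
        (by rw [Finset.card_insert_of_notMem zl', z1, show t1 - 2 + 1 + 1 = t1 by omega]; exact r1)
      rw [Finset.sum_insert zl] at a1
      rw [Finset.sum_insert zl'] at a2
      linarith
    have step2 : ∀ k k', B k k = B k' k' ∧ (∀ l, l ≠ k → l ≠ k' → B k l = B k' l) ∧
        ∀ i, w (.inl i) (.inr k) = w (.inl i) (.inr k') := by
      intro k k'
      obtain ⟨L, l1, l2⟩ := exists_avoid {k, k'} 1 (by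
        have : ({k, k'} : Finset (Fin M)).card ≤ 2 := Finset.card_le_two
        omega)
      obtain ⟨l0, rfl⟩ := Finset.card_eq_one.1 l1
      have n1 : l0 ≠ k := fun h => l2 k (by simp) (by simp [h])
      have n2 : l0 ≠ k' := fun h => l2 k' (by simp) (by simp [h])
      obtain ⟨e1, e2, e3⟩ := h2 (B k k - B k' k' - 2 * (B k l0 - B k' l0))
        (2 * (B k l0 - B k' l0))
        (fun i => 2 * (w (.inl i) (.inr k) - w (.inl i) (.inr k'))) (by
          intro x t a1 a2 a3
          obtain ⟨Z, z1, z2⟩ := exists_avoid {k, k'} (t - 1) (by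
            have : ({k, k'} : Finset (Fin M)).card ≤ 2 := Finset.card_le_two
            omega)
          have zk := z2 k (by simp)
          have zk' := z2 k' (by simp)
          have a4 := dif x Z k k' zk zk' (by rw [z1, show t - 1 + 1 = t by omega]; exact a1)
          rw [Finset.sum_congr rfl (fun l hl => step1 k k' l l0 (fun h => zk (h ▸ hl))
            (fun h => zk' (h ▸ hl)) n1 n2), Finset.sum_const, z1, nsmul_eq_mul,
            Nat.cast_sub a2] at a4
          have a5 : g x k - g x k' =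
              ∑ i, if x i then 2 * (w (.inl i) (.inr k) - w (.inl i) (.inr k')) else 0 := by
            simp only [g, ← Finset.sum_sub_distrib]
            refine Finset.sum_congr rfl (fun i _ => ?_)
            rw [hs (.inr k), hs (.inr k')]
            split_ifs <;> ring
          rw [a5] at a4
          unfold bx
          push_cast at a4
          linarith)
      refine ⟨by linarith, fun l a1 a2 => ?_, fun i => by linarith [e3 i]⟩
      have := step1 k k' l l0 a1 a2 n1 n2
      linarith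
    have off : ∀ k l, k ≠ l → B k l = 0 := by
      have b0 : B o1 o0 = 0 := (Bs _ _).trans h0
      intro k l hkl
      by_cases hl : l = o0
      · subst hl
        rw [(step2 k o1).2.1 _ hkl.symm o01, b0]
      · rw [(step2 k o0).2.1 l hkl.symm hl, Bs, (step2 l o1).2.1 o0 (Ne.symm hl) o01, b0]
    obtain ⟨e1, e2, e3⟩ := h3 (fun i j => w (.inl i) (.inl j)) (B o0 o0)
      (fun i => 2 * w (.inl i) (.inr o0)) (fun i j => hs _ _) (by
        intro x t a1 a2
        obtain ⟨Z, z1, -⟩ := exists_avoid (M := M) ∅ t (by simp; omega)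
        have a3 := root x Z (by rw [z1]; exact a1)
        have b1 : ∀ k ∈ Z, g x k = ∑ i, if x i then 2 * w (.inl i) (.inr o0) else 0 := by
          intro k _
          refine Finset.sum_congr rfl (fun i _ => ?_)
          rw [hs (.inr k), (step2 k o0).2.2 i]
          split_ifs <;> ring
        have b2 : ∀ k ∈ Z, ∑ l ∈ Z, B k l = B o0 o0 := by
          intro k hk
          rw [Finset.sum_eq_single_of_mem k hk (fun l _ hl => off k l hl.symm), (step2 k o0).1]
        rw [Finset.sum_congr rfl b1, Finset.sum_congr rfl b2, Finset.sum_const, Finset.sum_const,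
          z1, nsmul_eq_mul, nsmul_eq_mul] at a3
        unfold bx
        linarith)
    have lr : ∀ i k, w (.inl i) (.inr k) = 0 := fun i k => by
      rw [(step2 k o0).2.2 i]; linarith [e3 i]
    intro i j
    rcases i with i | k <;> rcases j with j | l
    · exact e1 i j
    · exact lr i l
    · rw [hs]; exact lr j k
    · by_cases hkl : k = l
      · subst hkl
        exact (step2 k o0).1.trans e2
      · exact off k l hkl

theorem certL {ρ K : Type} [Fintype K] (F : ρ → K → ℤ) (v : K → ℝ) :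
    ∀ (RL : List ρ) (CL : List ℤ), (∀ r ∈ RL, ∑ k, (F r k : ℝ) * v k = 0) →
      ∑ k, ((List.zipWith (fun c r => c * F r k) CL RL).sum : ℤ) * v k = 0 := by
  intro RL
  induction RL with
  | nil => intro CL _; simp
  | cons r RL ih =>
    intro CL h
    cases CL with
    | nil => simp
    | cons c CL =>
      have h1 := h r (by simp)
      have h2 := ih CL (fun r hr => h r (by simp [hr]))
      simp only [List.zipWith_cons_cons, List.sum_cons, Int.cast_add, Int.cast_mul, add_mul,
        Finset.sum_add_distrib, h2, mul_assoc, ← Finset.mul_sum, h1, mul_zero, add_zero]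

def F2 {p : ℕ} (x : Fin p → Bool) (t : ℕ) : Option (Option (Fin p)) → ℤ
  | none => 1
  | some none => t
  | some (some i) => if x i then 1 else 0

def F3 {p : ℕ} (x : Fin p → Bool) (t : ℕ) : (Fin p × Fin p) ⊕ Option (Fin p) → ℤ
  | .inl (i, j) => if x i && x j then 1 else 0
  | .inr none => t
  | .inr (some i) => if x i then t else 0

def sw {p : ℕ} : (Fin p × Fin p) ⊕ Option (Fin p) → (Fin p × Fin p) ⊕ Option (Fin p)
  | .inl (i, j) => .inl (j, i)
  | .inr o => .inr o

theorem h2_of_cert {p : ℕ} {ρ : Type} (X : ρ → Fin p → Bool) (T : ρ → ℕ) (RL : List ρ)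
    (C : Option (Option (Fin p)) → List ℤ) (N : ℤ) (hN : N ≠ 0)
    (hc : ∀ k0 k, (List.zipWith (fun c r => c * F2 (X r) (T r) k) (C k0) RL).sum =
      if k = k0 then N else 0)
    (c0 D : ℝ) (c : Fin p → ℝ) (h : ∀ r ∈ RL, bx c0 c (X r) + T r * D = 0) :
    c0 = 0 ∧ D = 0 ∧ ∀ i, c i = 0 := by
  let v : Option (Option (Fin p)) → ℝ := fun k => k.elim c0 (fun o => o.elim D c)
  have key : ∀ k0, v k0 = 0 := by
    intro k0
    have := certL (fun r => F2 (X r) (T r)) v RL (C k0) (fun r hr => by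
      have := h r hr
      simp only [bx] at this
      simp [Fintype.sum_option, F2, v]
      linarith)
    simp only [hc] at this
    simpa [hN] using this
  exact ⟨key none, key (some none), fun i => key (some (some i))⟩

theorem h3_of_cert {p : ℕ} {ρ : Type} (X : ρ → Fin p → Bool) (T : ρ → ℕ) (RL : List ρ)
    (C : (Fin p × Fin p) ⊕ Option (Fin p) → List ℤ) (N : ℤ) (hN : N ≠ 0)
    (hc : ∀ k0 k, (List.zipWith (fun c r => c * F3 (X r) (T r) k) (C k0) RL).sum =
      (if k = k0 then N else 0) + (if k = sw k0 then N else 0))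
    (B : Fin p → Fin p → ℝ) (c0 : ℝ) (c : Fin p → ℝ) (hs : ∀ i j, B i j = B j i)
    (h : ∀ r ∈ RL, cx B (X r) + T r * bx c0 c (X r) = 0) :
    (∀ i j, B i j = 0) ∧ c0 = 0 ∧ ∀ i, c i = 0 := by
  let v : (Fin p × Fin p) ⊕ Option (Fin p) → ℝ :=
    Sum.elim (fun q => B q.1 q.2) (fun o => o.elim c0 c)
  have key : ∀ k0, v k0 = 0 := by
    intro k0
    have := certL (fun r => F3 (X r) (T r)) v RL (C k0) (fun r hr => by
      have := h r hr
      simp only [bx, cx, mul_add, Finset.mul_sum] at this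
      simp [Fintype.sum_option, Fintype.sum_sum_type, Fintype.sum_prod_type, F3, v]
      simpa using this)
    simp only [hc] at this
    have e : v (sw k0) = v k0 := by
      rcases k0 with ⟨i, j⟩ | o
      · exact hs _ _
      · rfl
    simp only [Int.cast_add, Int.cast_ite, Int.cast_zero, add_mul, ite_mul, zero_mul,
      Finset.sum_add_distrib, Finset.sum_ite_eq', Finset.mem_univ, if_true, e] at this
    have h2 : (N : ℝ) * v k0 = 0 := by linarith
    simpa [hN] using h2
  exact ⟨fun i j => key (.inl (i, j)), key (.inr none), fun i => key (.inr (some i))⟩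

end Pool.Agent.Lib.MP_01798d_co
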