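import Mathlib
import Pool.Agent.Lib.MP_01798d_co.Gadget

set_option autoImplicit false

namespace Pool.Agent.Lib.MP_01798d_co

open Finset

def AL : List (List ℤ) := [[428, 996, -206, -108, -242, -184, -260, -134, -326], [0, 488, -220, -116, -258, -198, -276, -142, -348], [0, 0, 34, 24, 54, 40, 60, 30, 72], [0, 0, 0, 2, 32, 24, 36, 16, 40], [0, 0, 0, 0, 36, 50, 74, 34, 86], [0, 0, 0, 0, 0, 26, 54, 26, 64], [0, 0, 0, 0, 0, 0, 36, 38, 94], [0, 0, 0, 0, 0, 0, 0, 18, 46], [0, 0, 0, 0, 0, 0, 0, 0, 74]]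

def bL : List ℤ := [-288, -308, 62, 34, 74, 56, 80, 40, 98]

def G0 : Data 9 where
  A := fun i j => (AL.getD i []).getD j 0
  b0 := 23
  b := fun i => bL.getD i 0
  u := 43

def bits (n : ℕ) : Fin 9 → Bool := fun i => n.testBit i

def RL : List (ℕ × ℕ) := [(23, 5), (47, 5), (71, 5), (74, 2), (77, 1), (89, 1), (90, 1), (93, 0), (99, 5), (102, 1), (114, 1), (117, 0), (118, 0), (143, 5), (155, 5), (158, 1), (183, 4), (186, 1), (189, 0), (190, 0), (209, 1), (210, 1), (213, 0), (222, 0), (234, 1), (237, 0), (238, 0), (241, 0), (250, 0), (267, 5), (279, 4), (282, 1), (285, 0), (286, 0), (291, 5), (295, 4), (307, 4), (310, 0), (330, 1), (333, 0), (334, 0), (337, 0), (346, 0), (355, 4), (358, 0), (361, 0), (362, 0), (387, 5), (399, 4), (403, 4), (427, 4), (430, 0), (442, 0), (451, 4), (457,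 0), (466, 0), (481, 0), (482, 0)]

theorem exists_bits (x : Fin 9 → Bool) : ∃ n < 512, x = bits n := by
  have h : ∀ b0 b1 b2 b3 b4 b5 b6 b7 b8 : Bool, ∃ n < 512, ∀ i, (![b0, b1, b2, b3, b4, b5, b6, b7, b8] : Fin 9 → Bool) i = bits n i := by
    intro b0 b1 b2 b3 b4 b5 b6 b7 b8
    refine ⟨1 * b0.toNat + 2 * b1.toNat + 4 * b2.toNat + 8 * b3.toNat + 16 * b4.toNat + 32 * b5.toNat + 64 * b6.toNat + 128 * b7.toNat + 256 * b8.toNat, ?_, ?_⟩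
    · revert b0 b1 b2 b3 b4 b5 b6 b7 b8
      decide +kernel
    · revert b0 b1 b2 b3 b4 b5 b6 b7 b8
      decide +kernel
  obtain ⟨n, h1, h2⟩ := h (x 0) (x 1) (x 2) (x 3) (x 4) (x 5) (x 6) (x 7) (x 8)
  refine ⟨n, h1, funext fun i => ?_⟩
  rw [← h2]
  fin_cases i <;> rfl

def chk (n : ℕ) (c b : ℤ) : Bool :=
  decide (0 < b + 43 * 14) && (List.range 14).all (fun t =>
    decide (0 < c + t * (b + 43 * t)) ||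
      (decide (c + t * (b + 43 * t) = 0) && ((n == 0 && t == 0) || RL.contains (n, t))))

theorem chk_all : (List.range 512).all
    (fun n => chk n (cx G0.A (bits n)) (bx G0.b0 G0.b (bits n))) = true := by
  decide +kernel

theorem val_spec (n : ℕ) (hn : n < 512) (t : ℕ) :
    0 < G0.val (bits n) t ∨ (G0.val (bits n) t = 0 ∧ ((n = 0 ∧ t = 0) ∨ (n, t) ∈ RL)) := by
  have h := List.all_eq_true.1 chk_all n (List.mem_range.2 hn)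
  simp only [chk, Bool.and_eq_true, decide_eq_true_eq, List.all_eq_true, List.mem_range,
    Bool.or_eq_true, beq_iff_eq, List.contains_iff_mem] at h
  obtain ⟨h1, h2⟩ := h
  have hu : G0.u = 43 := rfl
  unfold Data.val
  rw [hu]
  by_cases ht : t < 14
  · exact h2 t ht
  · left
    have h0 : 0 ≤ cx G0.A (bits n) := by
      rcases h2 0 (by norm_num) with h | h
      · simpa using h.le
      · simpa using h.1.ge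
    have h3 : (14 : ℤ) ≤ t := by exact_mod_cast not_lt.1 ht
    have h4 : 0 < (t : ℤ) * (bx G0.b0 G0.b (bits n) + 43 * t) :=
      mul_pos (by linarith) (by linarith)
    linarith

theorem hV (x : Fin 9 → Bool) (t : ℕ) : 0 ≤ G0.val x t := by
  obtain ⟨n, hn, rfl⟩ := exists_bits x
  rcases val_spec n hn t with h | h
  · exact h.le
  · exact h.1.ge

theorem cross : ∀ r ∈ RL, ∀ s ∈ RL, (∃ i, bits r.1 i = true ∧ bits s.1 i = true) ∧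
    ((∀ i, bits r.1 i = true → bits s.1 i = true) → r.2 ≤ s.2 → r = s) := by
  decide +kernel

theorem root_mem (n : ℕ) (hn : n < 512) (t : ℕ) (h : G0.val (bits n) t = 0)
    (hz : (∃ i, bits n i = true) ∨ t ≠ 0) : (n, t) ∈ RL := by
  rcases val_spec n hn t with h1 | ⟨-, ⟨rfl, rfl⟩ | h1⟩
  · omega
  · simp [bits] at hz
  · exact h1

theorem hX (x : Fin 9 → Bool) (t : ℕ) (x' : Fin 9 → Bool) (t' : ℕ) (h : G0.val x t = 0)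
    (h' : G0.val x' t' = 0) (z : (∃ i, x i = true) ∨ t ≠ 0) (z' : (∃ i, x' i = true) ∨ t' ≠ 0) :
    (∃ i, x i = true ∧ x' i = true) ∧
      ((∀ i, x i = true → x' i = true) → t ≤ t' → x = x' ∧ t = t') := by
  obtain ⟨n, hn, rfl⟩ := exists_bits x
  obtain ⟨n', hn', rfl⟩ := exists_bits x'
  obtain ⟨c1, c2⟩ := cross _ (root_mem n hn t h z) _ (root_mem n' hn' t' h' z')
  refine ⟨c1, fun a1 a2 => ?_⟩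
  have := c2 a1 a2
  simp only [Prod.mk.injEq] at this
  exact ⟨by rw [this.1], this.2⟩


theorem h1 : ∃ x t, G0.val x t = 0 ∧ 2 ≤ t ∧ t + 2 ≤ 5 :=
  ⟨bits 74, 2, by decide +kernel, by norm_num, by norm_num⟩

def RL2 : List (ℕ × ℕ) := [(74, 2), (77, 1), (89, 1), (90, 1), (102, 1), (158, 1), (183, 4), (186, 1), (209, 1), (234, 1), (279, 4)]

def CL2 : List (List ℤ) := [[2, 0, 0, -2, 1, 0, -1, 2, 1, -2, 0], [1, -3, 4, -3, 1, 2, 0, -2, -1, 1, 0], [-3, 10, -13, 10, -4, -7, 1, 6, 3, -3, 0], [-3, 10, -14, 11, -4, -7, 1, 6, 3, -3, 0], [0, -2, 3, -2, 1, 2, 0, -2, -1, 1, 0], [0, -1, 2, -1, 0, 1, 0, -1, -1, 1, 0], [0, -3, 4, -2, 1, 2, 0, -2, -1, 1, 0], [0, -2, 3, -2, 1, 1, 0, -1, -1, 1, 0], [0, -3, 4, -2, 1, 2, 0, -3, -1, 2, 0], [0, -1, 1, -1, 0, 1, 0, -1, 0, 1, 0], [0, -3, 4, -3, 1, 2, -1, -2,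 -1, 2, 1]]

def C2 : Option (Option (Fin 9)) → List ℤ
  | none => CL2.getD 0 []
  | some none => CL2.getD 1 []
  | some (some i) => CL2.getD (i + 2) []

theorem cert2 : ∀ k0 k, (List.zipWith (fun c (r : ℕ × ℕ) => c * F2 (bits r.1) r.2 k) (C2 k0) RL2).sum =
    if k = k0 then 1 else 0 := by
  decide +kernel

theorem RL2_spec : ∀ r ∈ RL2, G0.val (bits r.1) r.2 = 0 ∧ 1 ≤ r.2 ∧ r.2 + 1 ≤ 5 := by
  decide +kernel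

theorem h2 (c0 D : ℝ) (c : Fin 9 → ℝ) (h : ∀ x t, G0.val x t = 0 → 1 ≤ t → t + 1 ≤ 5 →
    bx c0 c x + t * D = 0) : c0 = 0 ∧ D = 0 ∧ ∀ i, c i = 0 :=
  h2_of_cert (fun r : ℕ × ℕ => bits r.1) (fun r => r.2) RL2 C2 _ (by norm_num) cert2 c0 D c
    (fun r hr => h _ _ (RL2_spec r hr).1 (RL2_spec r hr).2.1 (RL2_spec r hr).2.2)

def RL3 : List (ℕ × ℕ) := [(23, 5), (47, 5), (71, 5), (74, 2), (77, 1), (89, 1), (90, 1), (93, 0), (99, 5), (102, 1), (114, 1), (117, 0), (118, 0), (143, 5), (155, 5), (158, 1), (183, 4), (186, 1), (189, 0), (190, 0), (209, 1), (210, 1), (213, 0), (222, 0), (234, 1), (237, 0), (238, 0), (241, 0), (250, 0), (267, 5), (279, 4), (282, 1), (285, 0), (286, 0), (291, 5), (295, 4), (307, 4), (310, 0), (330, 1), (337, 0), (346, 0), (355, 4), (358, 0), (361, 0), (362, 0), (387,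 5), (399, 4), (403, 4), (427, 4), (430, 0), (442, 0), (451, 4), (457, 0), (466, 0), (481, 0)]

def r3_0 : List ℤ := [862, 88, -1258, -428, 516, -164, 1360, -852, -236, 1290, -70, -170, -852, 362, 94, -1860, 88, 446, -244, 250, -352, -236, 88, 1954, 14, 332, -594, 932, -1274, 88, 226, -80, 330, 94, -1532, 94, -170, 86, -8, 432, -1032, 1838, -454, -6, 94, 1532, -462, -1100, -170, 86, 978, -344, 88, 236, -844]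
def r3_1 : List ℤ := [-240, -111, 73, -68, -258, -57, -273, 502, 585, -430, -71, 18, 287, 291, -444, 675, -111, -28, 126, -201, 315, 112, -111, -560, -175, -108, 158, -470, 531, 190, 56, 11, -169, -186, 230, 115, 147, -86, 315, -154, 215, -1002, 429, 75, -186, -746, -73, 592, 147, -86, -142, 344, -111, -284, 359]
def r3_2 : List ℤ := [-26, -26, 57, 103, 0, 25, -222, 68, -71, -86, 93, -26, 111, -62, 154, -29, -26, 7, 119, -111, -25, 15, 103, -161, -10, -145, 240, -119, 50, -69, -57, 8, -119, 154, 93, 111, -69, 0, 18, -26, 86, 57, -161, 78, -104, -50, 72, 24, -69, 0, -29, -43, -26, 28, 93]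
def r3_3 : List ℤ := [-75, -75, 176, 54, 0, -171, -45, 216, 35, -86, 2, 54, -85, -73, -42, 133, 54, -84, 120, 42, 171, -51, -75, -218, 77, -195, 87, -120, 174, 54, -47, 162, -120, -42, 131, -85, 54, 43, -216, -75, 129, -168, 126, 96, -42, -131, 125, 56, 54, 0, -254, -43, 54, 94, 45]
def r3_4 : List ℤ := [-8, -8, 216, 121, 0, -32, -237, 140, -2, -172, -193, -8, 183, -158, -32, 130, -8, -107, 116, 75, 32, 84, -8, -248, 245, -124, -118, -116, 237, -51, -216, 191, -116, -32, 237, -118, 121, 0, -183, -8, 215, -171, 139, 24, -32, -194, 300, 186, -51, 43, -300, -43, -8, -41, 108]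
def r3_5 : List ℤ := [-37, -37, 182, 92, 0, -19, -134, 24, -20, -86, 5, -37, 67, -161, 110, 139, -37, -81, -87, 191, 19, -106, -37, -72, 42, 50, -62, 87, 5, -80, -53, 104, 87, -148, 5, 67, 92, 0, -67, -37, 86, -119, -29, -18, 110, 38, 76, -75, 92, 0, -205, -43, -37, 149, 5]
def r3_6 : List ℤ := [-128, 1, 102, 130, 0, 4, -309, 176, 97, -172, -121, 1, 219, -77, 4, 274, 1, 8, 179, -262, -4, 183, 1, -356, -122, -178, 219, -179, 309, -42, 27, 89, -179, 4, 309, -82, -42, 43, -90, 1, 215, -242, -12, -3, 4, -266, 156, 138, -42, 43, -156, 86, 1, -140, 180]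
def r3_7 : List ℤ := [-62, 67, 40, 67, 0, 139, -192, -76, -37, -86, 106, 67, -33, 44, 10, -3, -62, -23, -4, 33, -139, 135, 67, -30, -133, -58, 96, 4, 63, -105, 89, 29, 4, 10, 106, -33, -105, 0, 33, -62, 86, -3, 13, -72, 10, -63, -83, 130, 67, 0, -46, 0, 67, -135, 63]
def r3_8 : List ℤ := [-95, 34, 286, 163, 0, 136, -358, -36, -185, -172, 143, 34, 50, -253, 136, 200, 34, -72, 66, -50, -136, 73, 34, -150, 109, -32, 50, -66, 57, -9, -157, -27, -66, 136, 143, 50, -9, 0, -222, 34, 215, -58, -64, -102, 136, -57, 101, 91, -9, 0, -187, -43, 34, -30, 100]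
def r3_9 : List ℤ := [-240, -111, 73, -68, -258, -57, -273, 502, 585, -430, -71, 18, 287, 291, -444, 675, -111, -28, 126, -201, 315, 112, -111, -560, -175, -108, 158, -470, 531, 190, 56, 11, -169, -186, 230, 115, 147, -86, 315, -154, 215, -1002, 429, 75, -186, -746, -73, 592, 147, -86, -142, 344, -111, -284, 359]
def r3_10 : List ℤ := [802, 28, -1530, -488, 0, 456, 1496, -1092, -208, 1806, -550, 28, -662, 1026, -146, -2132, 28, 1170, -664, -26, -456, 136, 28, 1986, -922, 1036, -662, 664, -1066, 28, 498, -776, 664, 456, -1324, -146, -230, 86, 748, 372, -1548, 2082, -938, -428, 456, 1324, -706, -952, -230, 86, 1222, -344, 28, 208, -636]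
def r3_11 : List ℤ := [-19, -19, 83, 110, 43, -33, -235, 96, -80, -129, 149, -62, 96, -128, 182, -3, -19, -66, 168, -96, -10, -37, 110, -159, 82, -230, 268, -82, 20, -62, -83, 72, -168, 139, 63, 139, -62, 0, -53, -19, 129, 40, -116, 143, -162, -20, 89, 1, -62, 0, -46, -43, -19, 37, 63]
def r3_12 : List ℤ := [-71, -71, 197, 58, 43, -241, -34, 232, 36, -129, 34, 58, -112, -123, -26, 154, 58, -138, 148, 69, 198, -93, -71, -223, 148, -262, 103, -105, 163, 58, -68, 217, -148, -69, 120, -69, 58, 43, -275, -71, 172, -190, 164, 127, -69, -120, 147, 49, 58, 0, -276, -43, 58, 93, 34]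
def r3_13 : List ℤ := [0, 0, 258, 129, 86, -129, -258, 172, 0, -258, -129, -43, 172, -258, 0, 172, 0, -215, 172, 129, 43, 43, 0, -258, 387, -215, -129, -86, 215, -43, -258, 301, -172, -86, 215, -86, 129, 0, -301, 0, 301, -215, 215, 86, -86, -172, 344, 172, -43, 43, -344, -43, 0, -43, 86]
def r3_14 : List ℤ := [-30, -30, 208, 99, 43, -77, -147, 52, -29, -129, 61, -73, 52, -227, 138, 165, -30, -154, -81, 249, 34, -158, -30, -70, 134, 8, -77, 124, -25, -73, -79, 168, 81, -206, -25, 95, 99, 0, -138, -30, 129, -136, 16, 4, 95, 68, 93, -98, 99, 0, -222, -43, -30, 158, -25]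
def r3_15 : List ℤ := [-120, 9, 144, 138, 86, -93, -330, 208, 99, -258, -57, -34, 208, -177, 36, 316, 9, -100, 278, -251, 7, 142, 9, -366, 20, -312, 251, -149, 287, -34, -15, 199, -235, -50, 287, -50, -34, 43, -208, 9, 301, -286, 64, 59, -50, -244, 200, 124, -34, 43, -200, 86, 9, -142, 158]
def r3_16 : List ℤ := [-58, 71, 61, 71, 43, 112, -224, -60, -36, -129, 138, 71, -60, -6, 26, 18, -58, -77, 24, 60, -155, 136, 71, -35, -62, -125, 112, 19, 52, -101, 68, 84, -24, -17, 95, -17, -101, 0, -26, -58, 129, -25, 51, -41, -17, -52, -61, 123, 71, 0, -68, 0, 71, -136, 52]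
def r3_17 : List ℤ := [-84, 45, 333, 174, 86, 51, -403, 8, -193, -258, 231, 2, 8, -369, 180, 247, 45, -199, 143, -8, -137, 22, 45, -153, 272, -141, 51, -14, 16, 2, -204, 92, -143, 94, 102, 94, 2, 0, -352, 45, 301, -97, 19, -49, 94, -16, 140, 61, 2, 0, -226, -43, 45, -22, 59]
def r3_18 : List ℤ := [-26, -26, 57, 103, 0, 25, -222, 68, -71, -86, 93, -26, 111, -62, 154, -29, -26, 7, 119, -111, -25, 15, 103, -161, -10, -145, 240, -119, 50, -69, -57, 8, -119, 154, 93, 111, -69, 0, 18, -26, 86, 57, -161, 78, -104, -50, 72, 24, -69, 0, -29, -43, -26, 28, 93]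
def r3_19 : List ℤ := [-19, -19, 83, 110, 43, -33, -235, 96, -80, -129, 149, -62, 96, -128, 182, -3, -19, -66, 168, -96, -10, -37, 110, -159, 82, -230, 268, -82, 20, -62, -83, 72, -168, 139, 63, 139, -62, 0, -53, -19, 129, 40, -116, 143, -162, -20, 89, 1, -62, 0, -46, -43, -19, 37, 63]
def r3_20 : List ℤ := [-206, -34, 316, -34, -86, -50, -158, 208, 142, -258, -14, 52, 122, -48, -136, 660, -34, -186, 20, -36, 136, -30, -34, -538, 20, -54, 36, -192, 416, 52, -58, -16, -20, -136, 330, -50, 138, 0, 50, -120, 258, -630, 236, 16, -50, -416, 28, 296, 138, 0, -286, 172, -34, -56, 158]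
def r3_21 : List ℤ := [31, 31, -63, -12, 0, 38, 10, -48, -3, 43, -10, -12, -5, 21, -5, -63, -12, 33, -41, 5, -38, 40, -12, 101, -41, 72, -48, 41, -53, -12, 20, -36, 41, -5, -53, -5, -12, 0, 48, 31, -43, 66, -28, -50, 38, 53, -23, -22, -12, 0, 66, 0, -12, -40, -10]
def r3_22 : List ℤ := [16, 16, -88, -27, 0, 21, 87, -65, 4, 86, -1, 16, -65, 58, -22, -88, 16, 42, -60, 22, -21, 4, -27, 152, -60, 76, -65, 60, -87, 16, 88, -38, 60, -22, -87, -22, -27, 0, 22, 16, -86, 84, -20, -48, 64, 87, -84, -71, 16, 0, 84, 0, 16, -4, -44]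
def r3_23 : List ℤ := [23, 23, -62, -20, 0, 6, 74, -37, -5, 43, -31, 23, -37, 35, -37, -62, 23, 12, -11, -6, -6, 38, -20, 68, -11, 34, -37, 11, -31, 23, 19, -17, 11, 6, -31, -37, -20, 0, -6, 23, -43, 67, 25, -26, 6, 31, -24, -8, -20, 0, 67, 0, 23, -38, -31]
def r3_24 : List ℤ := [56, 13, -50, -30, 0, 9, 111, -77, -29, 86, -25, 13, -77, 31, -34, -136, 13, 61, -81, 77, -9, -29, -30, 188, 5, 94, -120, 81, -111, 13, 7, -4, 81, -34, -111, -34, 13, 0, -9, 13, -86, 122, 16, -39, 52, 111, -36, -55, 13, 0, 36, -43, 13, 29, -68]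
def r3_25 : List ℤ := [28, -15, -25, -15, 0, -17, 77, -17, 7, 43, -34, -15, -17, -6, -17, -25, 28, 9, -19, 17, 17, -36, -15, 51, 24, 47, -60, 19, -34, 28, -18, -2, 19, -17, -34, -17, 28, 0, -26, 28, -43, 18, 8, 2, 26, 34, 25, -49, -15, 0, 18, 0, -15, 36, -34]
def r3_26 : List ℤ := [50, 7, -103, -36, 0, -15, 159, -58, 34, 86, -73, 7, -58, 63, -58, -103, 7, 56, -80, 58, 15, -9, -36, 131, -37, 87, -101, 80, -73, 7, 60, -22, 80, -58, -73, -58, 7, 0, 15, 7, -86, 69, 45, -21, 28, 73, -26, -66, 7, 0, 69, 0, 7, 9, -73]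
def r3_27 : List ℤ := [-75, -75, 176, 54, 0, -171, -45, 216, 35, -86, 2, 54, -85, -73, -42, 133, 54, -84, 120, 42, 171, -51, -75, -218, 77, -195, 87, -120, 174, 54, -47, 162, -120, -42, 131, -85, 54, 43, -216, -75, 129, -168, 126, 96, -42, -131, 125, 56, 54, 0, -254, -43, 54, 94, 45]
def r3_28 : List ℤ := [-71, -71, 197, 58, 43, -241, -34, 232, 36, -129, 34, 58, -112, -123, -26, 154, 58, -138, 148, 69, 198, -93, -71, -223, 148, -262, 103, -105, 163, 58, -68, 217, -148, -69, 120, -69, 58, 43, -275, -71, 172, -190, 164, 127, -69, -120, 147, 49, 58, 0, -276, -43, 58, 93, 34]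
def r3_29 : List ℤ := [31, 31, -63, -12, 0, 38, 10, -48, -3, 43, -10, -12, -5, 21, -5, -63, -12, 33, -41, 5, -38, 40, -12, 101, -41, 72, -48, 41, -53, -12, 20, -36, 41, -5, -53, -5, -12, 0, 48, 31, -43, 66, -28, -50, 38, 53, -23, -22, -12, 0, 66, 0, -12, -40, -10]
def r3_30 : List ℤ := [-174, -2, 140, -2, -86, 78, 16, -8, -22, -258, 70, -2, 250, 68, -8, 312, -2, -102, -100, 8, 8, -108, -2, -234, 72, 98, -8, 14, -16, -2, 32, -92, 100, -8, 242, 78, -2, -172, 94, -88, 0, -290, 110, 6, -8, -242, -140, 154, -2, 0, 54, 172, -2, 22, -16]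
def r3_31 : List ℤ := [27, 27, -84, -16, 0, 65, -1, -64, -4, 86, 1, -16, -21, 28, 22, -84, -16, 44, -26, -22, -65, 39, 27, 106, -69, 53, -21, 26, -42, -16, 41, -48, 26, 22, -85, 22, -16, 0, 64, 27, -43, 88, -66, -38, 22, 85, -45, -58, -16, 0, 88, 0, -16, -39, 1]
def r3_32 : List ℤ := [31, 31, -63, -12, 0, 38, 10, -48, -3, 43, -10, -12, -5, 21, -5, -63, -12, 33, 2, -38, -38, 40, 31, 58, -41, 29, -5, -2, -10, -12, 20, -36, -2, 38, -53, -5, -12, 0, 48, 31, -43, 66, -28, -7, -5, 53, -23, -22, -12, 0, 66, 0, -12, -40, -10]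
def r3_33 : List ℤ := [68, 25, -73, -18, 0, 57, 15, -72, -26, 86, -15, -18, -29, 10, 14, -116, -18, 71, -40, -14, -57, 17, 25, 130, -40, 65, -29, 40, -58, -18, -13, -54, 40, 14, -101, 14, -18, 43, 72, 25, -43, 142, -85, -32, 14, 101, -13, -33, -18, 0, 56, -43, -18, -17, -15]
def r3_34 : List ℤ := [35, -8, -42, -8, 0, 11, 21, -32, -2, 43, -21, -8, 11, 14, 11, -42, -8, 22, -13, -11, -11, -2, -8, 53, -13, 48, -32, 13, -21, -8, -1, -24, 13, 11, -21, 11, -8, 0, 32, 35, -43, 44, -33, -19, 11, 21, -1, -29, -8, 0, 44, 0, -8, 2, -21]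
def r3_35 : List ℤ := [66, 23, -105, -20, 0, 49, 31, -80, -5, 86, -31, -20, 6, 35, 6, -105, -20, 55, -54, -6, -49, 38, 23, 111, -54, 77, -37, 54, -74, -20, 19, -60, 54, 6, -74, 6, -20, 0, 80, 23, -43, 110, -61, -26, 6, 74, -24, -51, -20, 0, 110, 0, -20, -38, -31]
def r3_36 : List ℤ := [-8, -8, 216, 121, 0, -32, -237, 140, -2, -172, -193, -8, 183, -158, -32, 130, -8, -107, 116, 75, 32, 84, -8, -248, 245, -124, -118, -116, 237, -51, -216, 191, -116, -32, 237, -118, 121, 0, -183, -8, 215, -171, 139, 24, -32, -194, 300, 186, -51, 43, -300, -43, -8, -41, 108]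
def r3_37 : List ℤ := [0, 0, 258, 129, 86, -129, -258, 172, 0, -258, -129, -43, 172, -258, 0, 172, 0, -215, 172, 129, 43, 43, 0, -258, 387, -215, -129, -86, 215, -43, -258, 301, -172, -86, 215, -86, 129, 0, -301, 0, 301, -215, 215, 86, -86, -172, 344, 172, -43, 43, -344, -43, 0, -43, 86]
def r3_38 : List ℤ := [16, 16, -88, -27, 0, 21, 87, -65, 4, 86, -1, 16, -65, 58, -22, -88, 16, 42, -60, 22, -21, 4, -27, 152, -60, 76, -65, 60, -87, 16, 88, -38, 60, -22, -87, -22, -27, 0, 22, 16, -86, 84, -20, -48, 64, 87, -84, -71, 16, 0, 84, 0, 16, -4, -44]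
def r3_39 : List ℤ := [27, 27, -84, -16, 0, 65, -1, -64, -4, 86, 1, -16, -21, 28, 22, -84, -16, 44, -26, -22, -65, 39, 27, 106, -69, 53, -21, 26, -42, -16, 41, -48, 26, 22, -85, 22, -16, 0, 64, 27, -43, 88, -66, -38, 22, 85, -45, -58, -16, 0, 88, 0, -16, -39, 1]
def r3_40 : List ℤ := [-208, -36, 284, -36, -172, 28, -142, 200, 120, -430, 228, 50, 114, -66, -58, 628, -36, -116, 6, -114, 144, -52, -36, -514, -80, -42, 372, -178, 142, 50, -26, -108, -6, -58, 314, 114, -36, 0, 144, -122, 172, -576, 174, 22, -58, -400, -26, 278, 136, -172, -60, 172, -36, -34, 142]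
def r3_41 : List ℤ := [18, 18, -99, -25, 0, 29, 71, -57, -17, 86, 15, 18, -57, 76, -14, -99, 18, 58, -3, -72, -29, 26, 18, 85, -89, 21, 29, 3, -28, 18, 56, -75, 3, 72, -71, -14, -25, 0, 57, 18, -86, 116, -44, -11, -14, 71, -73, -53, -25, 0, 116, 0, 18, -26, -28]
def r3_42 : List ℤ := [49, 6, -119, -37, 0, 24, 124, -105, -63, 172, 48, 6, -105, 97, 24, -205, 6, 91, -87, 19, -24, -63, 6, 229, -87, 93, -62, 87, -124, 6, 76, -68, 87, 24, -167, 24, -37, 0, 62, 6, -129, 225, -115, -18, 24, 167, -139, -118, 6, 43, 96, -43, 6, 63, -81]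
def r3_43 : List ℤ := [26, -17, -57, -17, 0, -25, 93, -25, -15, 86, -7, -17, -25, 19, 18, -57, 26, 36, -33, -18, 25, -58, -17, 75, -33, 59, -25, 33, -50, 26, 14, -51, 33, 18, -50, 18, -17, 0, 25, 26, -86, 72, -54, 8, 18, 50, -29, -67, -17, 0, 72, 0, -17, 58, -50]
def r3_44 : List ℤ := [43, 0, -172, -43, 0, 0, 172, -86, 0, 172, 0, 0, -86, 129, 0, -172, 0, 86, -86, 0, 0, -43, 0, 172, -129, 86, 0, 86, -129, 0, 129, -86, 86, 0, -129, 0, -43, 0, 86, 0, -129, 172, -86, 0, 0, 129, -129, -129, 0, 0, 172, 0, 0, 43, -86]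
def r3_45 : List ℤ := [-37, -37, 182, 92, 0, -19, -134, 24, -20, -86, 5, -37, 67, -161, 110, 139, -37, -81, -87, 191, 19, -106, -37, -72, 42, 50, -62, 87, 5, -80, -53, 104, 87, -148, 5, 67, 92, 0, -67, -37, 86, -119, -29, -18, 110, 38, 76, -75, 92, 0, -205, -43, -37, 149, 5]
def r3_46 : List ℤ := [-30, -30, 208, 99, 43, -77, -147, 52, -29, -129, 61, -73, 52, -227, 138, 165, -30, -154, -81, 249, 34, -158, -30, -70, 134, 8, -77, 124, -25, -73, -79, 168, 81, -206, -25, 95, 99, 0, -138, -30, 129, -136, 16, 4, 95, 68, 93, -98, 99, 0, -222, -43, -30, 158, -25]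
def r3_47 : List ℤ := [23, 23, -62, -20, 0, 6, 74, -37, -5, 43, -31, 23, -37, 35, -37, -62, 23, 12, -11, -6, -6, 38, -20, 68, -11, 34, -37, 11, -31, 23, 19, -17, 11, 6, -31, -37, -20, 0, -6, 23, -43, 67, 25, -26, 6, 31, -24, -8, -20, 0, 67, 0, 23, -38, -31]
def r3_48 : List ℤ := [31, 31, -63, -12, 0, 38, 10, -48, -3, 43, -10, -12, -5, 21, -5, -63, -12, 33, 2, -38, -38, 40, 31, 58, -41, 29, -5, -2, -10, -12, 20, -36, -2, 38, -53, -5, -12, 0, 48, 31, -43, 66, -28, -7, -5, 53, -23, -22, -12, 0, 66, 0, -12, -40, -10]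
def r3_49 : List ℤ := [18, 18, -99, -25, 0, 29, 71, -57, -17, 86, 15, 18, -57, 76, -14, -99, 18, 58, -3, -72, -29, 26, 18, 85, -89, 21, 29, 3, -28, 18, 56, -75, 3, 72, -71, -14, -25, 0, 57, 18, -86, 116, -44, -11, -14, 71, -73, -53, -25, 0, 116, 0, 18, -26, -28]
def r3_50 : List ℤ := [-198, -26, 186, -26, -86, -18, -222, 240, 144, -258, 50, 60, 154, 24, -104, 358, -26, -36, 162, -154, 104, 58, -26, -376, 76, -188, 154, -248, 222, 60, -14, 8, -162, -18, 394, -18, -26, 0, 18, -112, 258, -502, 140, 78, -104, -480, 72, 368, -26, 0, -158, 172, -26, -144, 222]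
def r3_51 : List ℤ := [59, 16, -88, -27, 0, 21, 87, -65, -39, 86, -1, 16, -65, 58, -22, -131, 16, 42, -17, -21, -21, 4, 16, 109, -17, 33, -22, 17, -44, 16, 2, -38, 17, 64, -87, -22, -27, 0, 22, 16, -86, 170, -20, -5, -22, 87, -41, -28, -27, 0, 84, -43, 16, -4, -44]
def r3_52 : List ℤ := [30, -13, -36, -13, 0, -9, 61, -9, -14, 43, -18, -13, -9, 12, -9, -36, 30, 25, -5, -34, 9, -14, -13, 27, -5, 35, -9, 5, -18, 30, -7, -39, 5, 34, -18, -9, -13, 0, 9, 30, -43, 50, -16, -4, -9, 18, -7, -31, -13, 0, 50, 0, -13, 14, -18]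
def r3_53 : List ℤ := [54, 11, -125, -32, 0, 1, 127, -42, -8, 86, -41, 11, -42, 99, -42, -125, 11, 45, -9, -44, -1, 35, 11, 83, -52, 20, 1, 9, -41, 11, 39, -53, 9, 44, -41, -42, -32, 0, 42, 11, -86, 133, -3, 10, -42, 41, -47, -30, -32, 0, 133, 0, 11, -35, -41]
def r3_54 : List ℤ := [-128, 1, 102, 130, 0, 4, -309, 176, 97, -172, -121, 1, 219, -77, 4, 274, 1, 8, 179, -262, -4, 183, 1, -356, -122, -178, 219, -179, 309, -42, 27, 89, -179, 4, 309, -82, -42, 43, -90, 1, 215, -242, -12, -3, 4, -266, 156, 138, -42, 43, -156, 86, 1, -140, 180]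
def r3_55 : List ℤ := [-120, 9, 144, 138, 86, -93, -330, 208, 99, -258, -57, -34, 208, -177, 36, 316, 9, -100, 278, -251, 7, 142, 9, -366, 20, -312, 251, -149, 287, -34, -15, 199, -235, -50, 287, -50, -34, 43, -208, 9, 301, -286, 64, 59, -50, -244, 200, 124, -34, 43, -200, 86, 9, -142, 158]
def r3_56 : List ℤ := [56, 13, -50, -30, 0, 9, 111, -77, -29, 86, -25, 13, -77, 31, -34, -136, 13, 61, -81, 77, -9, -29, -30, 188, 5, 94, -120, 81, -111, 13, 7, -4, 81, -34, -111, -34, 13, 0, -9, 13, -86, 122, 16, -39, 52, 111, -36, -55, 13, 0, 36, -43, 13, 29, -68]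
def r3_57 : List ℤ := [68, 25, -73, -18, 0, 57, 15, -72, -26, 86, -15, -18, -29, 10, 14, -116, -18, 71, -40, -14, -57, 17, 25, 130, -40, 65, -29, 40, -58, -18, -13, -54, 40, 14, -101, 14, -18, 43, 72, 25, -43, 142, -85, -32, 14, 101, -13, -33, -18, 0, 56, -43, -18, -17, -15]
def r3_58 : List ℤ := [49, 6, -119, -37, 0, 24, 124, -105, -63, 172, 48, 6, -105, 97, 24, -205, 6, 91, -87, 19, -24, -63, 6, 229, -87, 93, -62, 87, -124, 6, 76, -68, 87, 24, -167, 24, -37, 0, 62, 6, -129, 225, -115, -18, 24, 167, -139, -118, 6, 43, 96, -43, 6, 63, -81]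
def r3_59 : List ℤ := [59, 16, -88, -27, 0, 21, 87, -65, -39, 86, -1, 16, -65, 58, -22, -131, 16, 42, -17, -21, -21, 4, 16, 109, -17, 33, -22, 17, -44, 16, 2, -38, 17, 64, -87, -22, -27, 0, 22, 16, -86, 170, -20, -5, -22, 87, -41, -28, -27, 0, 84, -43, 16, -4, -44]
def r3_60 : List ℤ := [-294, -36, 370, -36, -172, 28, -142, 200, 120, -430, 228, 50, 114, -66, -58, 628, -36, -374, -80, 230, 144, -52, -36, -514, 178, 44, 28, -178, 142, 50, -26, -108, -6, -58, 314, 114, 136, -172, 144, -122, 172, -748, 346, 22, -58, -400, -26, 278, 136, -172, -60, 172, -36, -34, 142]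
def r3_61 : List ℤ := [67, -19, -46, -19, 0, -33, 109, -33, -37, 86, -23, -19, -33, 1, 10, -89, 24, 20, -47, 33, 33, -80, -19, 99, 39, 71, -76, 47, -66, 24, -40, -14, 47, 10, -66, 10, 24, 0, -10, 24, -86, 83, -30, 14, 10, 66, 3, -85, -19, 0, 40, 0, -19, 80, -66]
def r3_62 : List ℤ := [125, -4, -150, -47, 0, -16, 204, -102, -44, 172, -32, -4, -102, 93, -16, -236, -4, 97, -114, 102, 16, -87, -4, 220, -28, 110, -102, 114, -161, -4, 21, -55, 114, -16, -161, -16, -4, 0, 59, -4, -129, 237, -38, 12, -16, 161, -65, -122, -4, 0, 108, -43, -4, 87, -118]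
def r3_63 : List ℤ := [-62, 67, 40, 67, 0, 139, -192, -76, -37, -86, 106, 67, -33, 44, 10, -3, -62, -23, -4, 33, -139, 135, 67, -30, -133, -58, 96, 4, 63, -105, 89, 29, 4, 10, 106, -33, -105, 0, 33, -62, 86, -3, 13, -72, 10, -63, -83, 130, 67, 0, -46, 0, 67, -135, 63]
def r3_64 : List ℤ := [-58, 71, 61, 71, 43, 112, -224, -60, -36, -129, 138, 71, -60, -6, 26, 18, -58, -77, 24, 60, -155, 136, 71, -35, -62, -125, 112, 19, 52, -101, 68, 84, -24, -17, 95, -17, -101, 0, -26, -58, 129, -25, 51, -41, -17, -52, -61, 123, 71, 0, -68, 0, 71, -136, 52]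
def r3_65 : List ℤ := [28, -15, -25, -15, 0, -17, 77, -17, 7, 43, -34, -15, -17, -6, -17, -25, 28, 9, -19, 17, 17, -36, -15, 51, 24, 47, -60, 19, -34, 28, -18, -2, 19, -17, -34, -17, 28, 0, -26, 28, -43, 18, 8, 2, 26, 34, 25, -49, -15, 0, 18, 0, -15, 36, -34]
def r3_66 : List ℤ := [35, -8, -42, -8, 0, 11, 21, -32, -2, 43, -21, -8, 11, 14, 11, -42, -8, 22, -13, -11, -11, -2, -8, 53, -13, 48, -32, 13, -21, -8, -1, -24, 13, 11, -21, 11, -8, 0, 32, 35, -43, 44, -33, -19, 11, 21, -1, -29, -8, 0, 44, 0, -8, 2, -21]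
def r3_67 : List ℤ := [26, -17, -57, -17, 0, -25, 93, -25, -15, 86, -7, -17, -25, 19, 18, -57, 26, 36, -33, -18, 25, -58, -17, 75, -33, 59, -25, 33, -50, 26, 14, -51, 33, 18, -50, 18, -17, 0, 25, 26, -86, 72, -54, 8, 18, 50, -29, -67, -17, 0, 72, 0, -17, 58, -50]
def r3_68 : List ℤ := [30, -13, -36, -13, 0, -9, 61, -9, -14, 43, -18, -13, -9, 12, -9, -36, 30, 25, -5, -34, 9, -14, -13, 27, -5, 35, -9, 5, -18, 30, -7, -39, 5, 34, -18, -9, -13, 0, 9, 30, -43, 50, -16, -4, -9, 18, -7, -31, -13, 0, 50, 0, -13, 14, -18]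
def r3_69 : List ℤ := [67, -19, -46, -19, 0, -33, 109, -33, -37, 86, -23, -19, -33, 1, 10, -89, 24, 20, -47, 33, 33, -80, -19, 99, 39, 71, -76, 47, -66, 24, -40, -14, 47, 10, -66, 10, 24, 0, -10, 24, -86, 83, -30, 14, 10, 66, 3, -85, -19, 0, 40, 0, -19, 80, -66]
def r3_70 : List ℤ := [-190, -18, 228, -18, -86, -72, -200, 272, 146, -258, -58, -18, 186, -76, -72, 400, -18, -58, 132, -100, 158, 60, -18, -386, 132, -150, 100, -218, 200, 68, -56, 32, -132, -72, 114, 14, 154, 0, -14, -104, 258, -374, 130, 54, -72, -200, 116, 182, -18, 0, -202, 0, -18, -60, 200]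
def r3_71 : List ℤ := [63, -23, -67, -23, 0, -49, 141, -6, 5, 86, -55, -23, -6, 8, -6, -67, 20, 31, -32, 6, 49, -81, -23, 61, 11, 52, -49, 32, -55, 20, -19, -26, 32, -6, -55, -6, 20, 0, 6, 20, -86, 62, -25, 26, -6, 55, 24, -78, -23, 0, 62, 0, -23, 81, -55]
def r3_72 : List ℤ := [-95, 34, 286, 163, 0, 136, -358, -36, -185, -172, 143, 34, 50, -253, 136, 200, 34, -72, 66, -50, -136, 73, 34, -150, 109, -32, 50, -66, 57, -9, -157, -27, -66, 136, 143, 50, -9, 0, -222, 34, 215, -58, -64, -102, 136, -57, 101, 91, -9, 0, -187, -43, 34, -30, 100]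
def r3_73 : List ℤ := [-84, 45, 333, 174, 86, 51, -403, 8, -193, -258, 231, 2, 8, -369, 180, 247, 45, -199, 143, -8, -137, 22, 45, -153, 272, -141, 51, -14, 16, 2, -204, 92, -143, 94, 102, 94, 2, 0, -352, 45, 301, -97, 19, -49, 94, -16, 140, 61, 2, 0, -226, -43, 45, -22, 59]
def r3_74 : List ℤ := [50, 7, -103, -36, 0, -15, 159, -58, 34, 86, -73, 7, -58, 63, -58, -103, 7, 56, -80, 58, 15, -9, -36, 131, -37, 87, -101, 80, -73, 7, 60, -22, 80, -58, -73, -58, 7, 0, 15, 7, -86, 69, 45, -21, 28, 73, -26, -66, 7, 0, 69, 0, 7, 9, -73]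
def r3_75 : List ℤ := [66, 23, -105, -20, 0, 49, 31, -80, -5, 86, -31, -20, 6, 35, 6, -105, -20, 55, -54, -6, -49, 38, 23, 111, -54, 77, -37, 54, -74, -20, 19, -60, 54, 6, -74, 6, -20, 0, 80, 23, -43, 110, -61, -26, 6, 74, -24, -51, -20, 0, 110, 0, -20, -38, -31]
def r3_76 : List ℤ := [43, 0, -172, -43, 0, 0, 172, -86, 0, 172, 0, 0, -86, 129, 0, -172, 0, 86, -86, 0, 0, -43, 0, 172, -129, 86, 0, 86, -129, 0, 129, -86, 86, 0, -129, 0, -43, 0, 86, 0, -129, 172, -86, 0, 0, 129, -129, -129, 0, 0, 172, 0, 0, 43, -86]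
def r3_77 : List ℤ := [54, 11, -125, -32, 0, 1, 127, -42, -8, 86, -41, 11, -42, 99, -42, -125, 11, 45, -9, -44, -1, 35, 11, 83, -52, 20, 1, 9, -41, 11, 39, -53, 9, 44, -41, -42, -32, 0, 42, 11, -86, 133, -3, 10, -42, 41, -47, -30, -32, 0, 133, 0, 11, -35, -41]
def r3_78 : List ℤ := [125, -4, -150, -47, 0, -16, 204, -102, -44, 172, -32, -4, -102, 93, -16, -236, -4, 97, -114, 102, 16, -87, -4, 220, -28, 110, -102, 114, -161, -4, 21, -55, 114, -16, -161, -16, -4, 0, 59, -4, -129, 237, -38, 12, -16, 161, -65, -122, -4, 0, 108, -43, -4, 87, -118]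
def r3_79 : List ℤ := [63, -23, -67, -23, 0, -49, 141, -6, 5, 86, -55, -23, -6, 8, -6, -67, 20, 31, -32, 6, 49, -81, -23, 61, 11, 52, -49, 32, -55, 20, -19, -26, 32, -6, -55, -6, 20, 0, 6, 20, -86, 62, -25, 26, -6, 55, 24, -78, -23, 0, 62, 0, -23, 81, -55]
def r3_80 : List ℤ := [-332, -74, 278, -74, -172, -124, -268, 478, 390, -430, -76, 12, 306, 108, -210, 622, -74, -162, 170, -134, 296, 46, -74, -660, -88, -244, 220, -428, 612, 12, 66, 208, -170, -210, 440, -38, 98, 0, 296, -160, 172, -840, 286, 136, -210, -612, 66, 452, 98, 0, -324, 172, -74, -132, 354]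
def r3_81 : List ℤ := [-238, -66, 406, 278, -86, -92, -762, 510, 306, -602, -12, 20, 338, -164, -178, 750, -66, -184, 312, -166, 264, 134, -66, -756, 54, -378, 252, -484, 676, 20, -148, 318, -312, -178, 504, -6, 106, 0, -166, -152, 602, -884, 362, 112, -178, -676, 282, 524, 106, 0, -540, 172, -66, -220, 418]
def r3_82 : List ℤ := [30, 30, -36, -56, 0, 120, 190, -224, -186, 172, -18, 30, -52, 12, 120, -208, 30, 68, -134, 52, -120, -14, 30, 156, -48, 164, -52, 134, -190, -56, 36, -168, 134, 120, -18, -52, -56, 0, 52, 30, -172, 308, -188, -90, 120, 190, -50, -160, -56, 0, 136, -86, 30, 100, -104]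
def r3_83 : List ℤ := [50, 50, 26, -36, 86, -58, 202, -144, -224, 86, 142, -36, -144, -152, 200, -146, 50, -116, -80, 144, -114, -138, 50, 174, 178, 44, -58, 252, -288, -36, -26, -22, 80, 28, -116, 28, -36, 0, -114, 50, -86, 284, -84, 22, 28, 288, -26, -238, -36, 0, 112, -86, 50, 138, -202]
def r3_84 : List ℤ := [24, 24, -46, -62, 0, 10, 152, -76, 6, 86, -66, 24, -76, 44, -76, -46, 24, 20, -90, 76, -10, 6, -62, 142, -4, 114, -162, 90, -66, 24, 46, -14, 90, -76, -66, -76, 24, 0, -10, 24, -86, 40, 56, -72, 96, 66, -40, -42, 24, 0, 40, 0, 24, -6, -66]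
def r3_85 : List ℤ := [52, 52, -114, -34, 0, 122, 14, -136, -30, 86, -14, -34, 36, 38, 36, -114, -34, 72, -66, -36, -122, 56, 52, 150, -66, 118, -50, 66, -100, -34, 28, -102, 66, 36, -100, 36, -34, 0, 136, 52, -86, 144, -108, -70, 36, 100, -58, -48, -34, 0, 144, 0, -34, -56, -14]
def r3_86 : List ℤ := [12, 12, -152, -74, 0, 48, 162, -124, -40, 172, 96, 12, -124, 108, 48, -152, 12, 96, -88, -48, -48, -40, 12, 200, -174, 100, 48, 88, -162, 12, 152, -136, 88, 48, -162, 48, -74, 0, 124, 12, -172, 192, -144, -36, 48, 162, -192, -150, 12, 0, 192, 0, 12, 40, -76]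
def r3_87 : List ℤ := [30, 30, -122, -56, 0, 34, 104, -52, -14, 86, -18, 30, -52, 98, -52, -122, 30, 68, 38, -120, -34, 72, 30, 70, -48, -8, 34, -38, -18, 30, 36, -82, -38, 120, -18, -52, -56, 0, 52, 30, -86, 136, -16, -4, -52, 18, -50, 12, -56, 0, 136, 0, 30, -72, -18]
def r3_88 : List ℤ := [92, 6, -76, -80, 0, 24, 210, -148, -106, 172, 48, 6, -148, 54, 24, -248, 6, 48, -130, 148, -24, -106, 6, 272, 42, 136, -148, 130, -210, 6, -10, -68, 130, 24, -210, 24, 6, 0, 62, 6, -172, 268, -72, -18, 24, 210, -96, -118, 6, 0, 96, -86, 6, 106, -124]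
def r3_89 : List ℤ := [46, -40, -38, -40, 0, -74, 148, 12, -10, 86, -62, -40, 12, -16, 12, -38, 46, 24, -22, -12, 74, -96, -40, 50, 64, 68, -74, 22, -62, 46, -48, -34, 22, 12, -62, 12, 46, 0, -12, 46, -86, 48, -36, 34, 12, 62, 38, -102, -40, 0, 48, 0, -40, 96, -62]
def r3_90 : List ℤ := [74, -12, -192, -98, 0, -48, 268, -48, 40, 172, -96, -12, -48, 150, -48, -192, -12, 76, -84, 48, 48, -46, -12, 144, -84, 72, -48, 84, -96, -12, 106, -36, 84, -48, -96, -48, -12, 0, 134, -12, -172, 152, -28, 36, -48, 96, -66, -108, -12, 0, 152, 0, -12, 46, -96]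

def CL3 : List (List ℤ) := [r3_0, r3_1, r3_2, r3_3, r3_4, r3_5, r3_6, r3_7, r3_8, r3_9, r3_10, r3_11, r3_12, r3_13, r3_14, r3_15, r3_16, r3_17, r3_18, r3_19, r3_20, r3_21, r3_22, r3_23, r3_24, r3_25, r3_26, r3_27, r3_28, r3_29, r3_30, r3_31, r3_32, r3_33, r3_34, r3_35, r3_36, r3_37, r3_38, r3_39, r3_40, r3_41, r3_42, r3_43, r3_44, r3_45, r3_46, r3_47, r3_48, r3_49, r3_50, r3_51, r3_52, r3_53, r3_54, r3_55, r3_56, r3_57, r3_58, r3_59, r3_60, r3_61, r3_62, r3_63, r3_64, r3_65, r3_66, r3_67, r3_68, r3_69, r3_70, r3_71, r3_72, r3_73, r3_74, r3_75, r3_76, r3_77, r3_78, r3_79, r3_80, r3_81, r3_82, r3_83, r3_84, r3_85, r3_86, r3_87, r3_88, r3_89, r3_90]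

def f3_0 : List ℤ := [1, 1, 1, 0, 1, 1, 0, 1, 1, 0, 0, 1, 0, 1, 1, 0, 1, 0, 1, 0, 1, 0, 1, 0, 0, 1, 0, 1, 0, 1, 1, 0, 1, 0, 1, 1, 1, 0, 0, 1, 0, 1, 0, 1, 0, 1, 1, 1, 1, 0, 0, 1, 1, 0, 1]
def f3_1 : List ℤ := [1, 1, 1, 0, 0, 0, 0, 0, 1, 0, 0, 0, 0, 1, 1, 0, 1, 0, 0, 0, 0, 0, 0, 0, 0, 0, 0, 0, 0, 1, 1, 0, 0, 0, 1, 1, 1, 0, 0, 0, 0, 1, 0, 0, 0, 1, 1, 1, 1, 0, 0, 1, 0, 0, 0]
def f3_2 : List ℤ := [1, 1, 1, 0, 1, 0, 0, 1, 0, 0, 0, 1, 0, 1, 0, 0, 1, 0, 1, 0, 0, 0, 1, 0, 0, 1, 0, 0, 0, 0, 1, 0, 1, 0, 0, 1, 0, 0, 0, 0, 0, 0, 0, 0, 0, 0, 1, 0, 0, 0, 0, 0, 0, 0, 0]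
def f3_3 : List ℤ := [0, 1, 0, 0, 1, 1, 0, 1, 0, 0, 0, 0, 0, 1, 1, 0, 0, 0, 1, 0, 0, 0, 0, 0, 0, 1, 0, 0, 0, 1, 0, 0, 1, 0, 0, 0, 0, 0, 0, 0, 0, 0, 0, 1, 0, 0, 1, 0, 1, 0, 0, 0, 1, 0, 0]
def f3_4 : List ℤ := [1, 0, 0, 0, 0, 1, 0, 1, 0, 0, 0, 1, 0, 0, 1, 0, 1, 0, 1, 0, 1, 0, 1, 0, 0, 0, 0, 1, 0, 0, 1, 0, 1, 0, 0, 0, 1, 0, 0, 1, 0, 0, 0, 0, 0, 0, 0, 1, 0, 0, 0, 0, 0, 0, 0]
def f3_5 : List ℤ := [0, 1, 0, 0, 0, 0, 0, 0, 1, 0, 0, 1, 0, 0, 0, 0, 1, 0, 1, 0, 0, 0, 0, 0, 0, 1, 0, 1, 0, 0, 0, 0, 0, 0, 1, 1, 1, 0, 0, 0, 0, 1, 0, 1, 0, 0, 0, 0, 1, 0, 0, 0, 0, 0, 1]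
def f3_6 : List ℤ := [0, 0, 1, 0, 1, 1, 0, 1, 1, 0, 0, 1, 0, 0, 0, 0, 0, 0, 0, 0, 1, 0, 1, 0, 0, 1, 0, 1, 0, 0, 0, 0, 0, 0, 0, 0, 0, 0, 0, 1, 0, 1, 0, 1, 0, 0, 0, 0, 0, 0, 0, 1, 1, 0, 1]
def f3_7 : List ℤ := [0, 0, 0, 0, 0, 0, 0, 0, 0, 0, 0, 0, 0, 1, 1, 0, 1, 0, 1, 0, 1, 0, 1, 0, 0, 1, 0, 1, 0, 0, 0, 0, 0, 0, 0, 0, 0, 0, 0, 0, 0, 0, 0, 0, 0, 1, 1, 1, 1, 0, 0, 1, 1, 0, 1]
def f3_8 : List ℤ := [0, 0, 0, 0, 0, 0, 0, 0, 0, 0, 0, 0, 0, 0, 0, 0, 0, 0, 0, 0, 0, 0, 0, 0, 0, 0, 0, 0, 0, 1, 1, 0, 1, 0, 1, 1, 1, 0, 0, 1, 0, 1, 0, 1, 0, 1, 1, 1, 1, 0, 0, 1, 1, 0, 1]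
def f3_9 : List ℤ := [1, 1, 1, 0, 0, 0, 0, 0, 1, 0, 0, 0, 0, 1, 1, 0, 1, 0, 0, 0, 0, 0, 0, 0, 0, 0, 0, 0, 0, 1, 1, 0, 0, 0, 1, 1, 1, 0, 0, 0, 0, 1, 0, 0, 0, 1, 1, 1, 1, 0, 0, 1, 0, 0, 0]
def f3_10 : List ℤ := [1, 1, 1, 1, 0, 0, 1, 0, 1, 1, 1, 0, 1, 1, 1, 1, 1, 1, 0, 1, 0, 1, 0, 1, 1, 0, 1, 0, 1, 1, 1, 1, 0, 1, 1, 1, 1, 1, 1, 0, 1, 1, 1, 0, 1, 1, 1, 1, 1, 1, 1, 1, 0, 1, 0]
def f3_11 : List ℤ := [1, 1, 1, 0, 0, 0, 0, 0, 0, 1, 0, 0, 1, 1, 0, 1, 1, 0, 0, 1, 0, 0, 0, 1, 0, 0, 1, 0, 0, 0, 1, 0, 0, 1, 0, 1, 0, 1, 0, 0, 0, 0, 1, 0, 0, 0, 1, 0, 0, 1, 0, 0, 0, 0, 0]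
def f3_12 : List ℤ := [0, 1, 0, 1, 0, 0, 1, 0, 0, 0, 0, 0, 0, 1, 1, 1, 0, 1, 0, 1, 0, 0, 0, 1, 1, 0, 1, 0, 1, 1, 0, 1, 0, 1, 0, 0, 0, 0, 1, 0, 1, 0, 0, 0, 1, 0, 1, 0, 1, 1, 1, 0, 0, 0, 0]
def f3_13 : List ℤ := [1, 0, 0, 0, 0, 0, 1, 0, 0, 0, 1, 0, 1, 0, 1, 1, 1, 1, 0, 1, 0, 1, 0, 1, 0, 0, 0, 0, 1, 0, 1, 1, 0, 1, 0, 0, 1, 1, 0, 0, 1, 0, 0, 0, 0, 0, 0, 1, 0, 0, 1, 0, 0, 1, 0]
def f3_14 : List ℤ := [0, 1, 0, 0, 0, 0, 0, 0, 1, 1, 1, 0, 1, 0, 0, 0, 1, 1, 0, 1, 0, 0, 0, 0, 1, 0, 1, 0, 1, 0, 0, 0, 0, 0, 1, 1, 1, 1, 0, 0, 0, 1, 1, 0, 1, 0, 0, 0, 1, 1, 1, 0, 0, 0, 0]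
def f3_15 : List ℤ := [0, 0, 1, 1, 0, 0, 1, 0, 1, 1, 1, 0, 1, 0, 0, 0, 0, 0, 0, 0, 0, 1, 0, 1, 1, 0, 1, 0, 1, 0, 0, 0, 0, 0, 0, 0, 0, 0, 1, 0, 1, 1, 1, 0, 1, 0, 0, 0, 0, 0, 0, 1, 0, 1, 0]
def f3_16 : List ℤ := [0, 0, 0, 0, 0, 0, 0, 0, 0, 0, 0, 0, 0, 1, 1, 1, 1, 1, 0, 1, 0, 1, 0, 1, 1, 0, 1, 0, 1, 0, 0, 0, 0, 0, 0, 0, 0, 0, 0, 0, 0, 0, 0, 0, 0, 1, 1, 1, 1, 1, 1, 1, 0, 1, 0]
def f3_17 : List ℤ := [0, 0, 0, 0, 0, 0, 0, 0, 0, 0, 0, 0, 0, 0, 0, 0, 0, 0, 0, 0, 0, 0, 0, 0, 0, 0, 0, 0, 0, 1, 1, 1, 0, 1, 1, 1, 1, 1, 1, 0, 1, 1, 1, 0, 1, 1, 1, 1, 1, 1, 1, 1, 0, 1, 0]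
def f3_18 : List ℤ := [1, 1, 1, 0, 1, 0, 0, 1, 0, 0, 0, 1, 0, 1, 0, 0, 1, 0, 1, 0, 0, 0, 1, 0, 0, 1, 0, 0, 0, 0, 1, 0, 1, 0, 0, 1, 0, 0, 0, 0, 0, 0, 0, 0, 0, 0, 1, 0, 0, 0, 0, 0, 0, 0, 0]
def f3_19 : List ℤ := [1, 1, 1, 0, 0, 0, 0, 0, 0, 1, 0, 0, 1, 1, 0, 1, 1, 0, 0, 1, 0, 0, 0, 1, 0, 0, 1, 0, 0, 0, 1, 0, 0, 1, 0, 1, 0, 1, 0, 0, 0, 0, 1, 0, 0, 0, 1, 0, 0, 1, 0, 0, 0, 0, 0]
def f3_20 : List ℤ := [1, 1, 1, 0, 1, 0, 0, 1, 0, 1, 0, 1, 1, 1, 0, 1, 1, 0, 1, 1, 0, 0, 1, 1, 0, 1, 1, 0, 0, 0, 1, 0, 1, 1, 0, 1, 0, 1, 0, 0, 0, 0, 1, 0, 0, 0, 1, 0, 0, 1, 0, 0, 0, 0, 0]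
def f3_21 : List ℤ := [0, 1, 0, 0, 1, 0, 0, 1, 0, 0, 0, 0, 0, 1, 0, 1, 0, 0, 1, 1, 0, 0, 0, 1, 0, 1, 1, 0, 0, 0, 0, 0, 1, 1, 0, 0, 0, 0, 0, 0, 0, 0, 0, 0, 0, 0, 1, 0, 0, 1, 0, 0, 0, 0, 0]
def f3_22 : List ℤ := [1, 0, 0, 0, 0, 0, 0, 1, 0, 0, 0, 1, 1, 0, 0, 1, 1, 0, 1, 1, 0, 0, 1, 1, 0, 0, 0, 0, 0, 0, 1, 0, 1, 1, 0, 0, 0, 1, 0, 0, 0, 0, 0, 0, 0, 0, 0, 0, 0, 0, 0, 0, 0, 0, 0]
def f3_23 : List ℤ := [0, 1, 0, 0, 0, 0, 0, 0, 0, 1, 0, 1, 1, 0, 0, 0, 1, 0, 1, 1, 0, 0, 0, 0, 0, 1, 1, 0, 0, 0, 0, 0, 0, 0, 0, 1, 0, 1, 0, 0, 0, 0, 1, 0, 0, 0, 0, 0, 0, 1, 0, 0, 0, 0, 0]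
def f3_24 : List ℤ := [0, 0, 1, 0, 1, 0, 0, 1, 0, 1, 0, 1, 1, 0, 0, 0, 0, 0, 0, 0, 0, 0, 1, 1, 0, 1, 1, 0, 0, 0, 0, 0, 0, 0, 0, 0, 0, 0, 0, 0, 0, 0, 1, 0, 0, 0, 0, 0, 0, 0, 0, 0, 0, 0, 0]
def f3_25 : List ℤ := [0, 0, 0, 0, 0, 0, 0, 0, 0, 0, 0, 0, 0, 1, 0, 1, 1, 0, 1, 1, 0, 0, 1, 1, 0, 1, 1, 0, 0, 0, 0, 0, 0, 0, 0, 0, 0, 0, 0, 0, 0, 0, 0, 0, 0, 0, 1, 0, 0, 1, 0, 0, 0, 0, 0]
def f3_26 : List ℤ := [0, 0, 0, 0, 0, 0, 0, 0, 0, 0, 0, 0, 0, 0, 0, 0, 0, 0, 0, 0, 0, 0, 0, 0, 0, 0, 0, 0, 0, 0, 1, 0, 1, 1, 0, 1, 0, 1, 0, 0, 0, 0, 1, 0, 0, 0, 1, 0, 0, 1, 0, 0, 0, 0, 0]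
def f3_27 : List ℤ := [0, 1, 0, 0, 1, 1, 0, 1, 0, 0, 0, 0, 0, 1, 1, 0, 0, 0, 1, 0, 0, 0, 0, 0, 0, 1, 0, 0, 0, 1, 0, 0, 1, 0, 0, 0, 0, 0, 0, 0, 0, 0, 0, 1, 0, 0, 1, 0, 1, 0, 0, 0, 1, 0, 0]
def f3_28 : List ℤ := [0, 1, 0, 1, 0, 0, 1, 0, 0, 0, 0, 0, 0, 1, 1, 1, 0, 1, 0, 1, 0, 0, 0, 1, 1, 0, 1, 0, 1, 1, 0, 1, 0, 1, 0, 0, 0, 0, 1, 0, 1, 0, 0, 0, 1, 0, 1, 0, 1, 1, 1, 0, 0, 0, 0]
def f3_29 : List ℤ := [0, 1, 0, 0, 1, 0, 0, 1, 0, 0, 0, 0, 0, 1, 0, 1, 0, 0, 1, 1, 0, 0, 0, 1, 0, 1, 1, 0, 0, 0, 0, 0, 1, 1, 0, 0, 0, 0, 0, 0, 0, 0, 0, 0, 0, 0, 1, 0, 0, 1, 0, 0, 0, 0, 0]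
def f3_30 : List ℤ := [0, 1, 0, 1, 1, 1, 1, 1, 0, 0, 0, 0, 0, 1, 1, 1, 0, 1, 1, 1, 0, 0, 0, 1, 1, 1, 1, 0, 1, 1, 0, 1, 1, 1, 0, 0, 0, 0, 1, 0, 1, 0, 0, 1, 1, 0, 1, 0, 1, 1, 1, 0, 1, 0, 0]
def f3_31 : List ℤ := [0, 0, 0, 0, 0, 1, 1, 1, 0, 0, 0, 0, 0, 0, 1, 1, 0, 1, 1, 1, 0, 0, 0, 1, 0, 0, 0, 0, 1, 0, 0, 1, 1, 1, 0, 0, 0, 0, 0, 0, 1, 0, 0, 0, 0, 0, 0, 0, 0, 0, 1, 0, 0, 0, 0]
def f3_32 : List ℤ := [0, 1, 0, 0, 0, 0, 0, 0, 0, 0, 0, 0, 0, 0, 0, 0, 0, 1, 1, 1, 0, 0, 0, 0, 1, 1, 1, 0, 1, 0, 0, 0, 0, 0, 0, 0, 0, 0, 0, 0, 0, 0, 0, 1, 1, 0, 0, 0, 1, 1, 1, 0, 0, 0, 0]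
def f3_33 : List ℤ := [0, 0, 0, 1, 1, 1, 1, 1, 0, 0, 0, 0, 0, 0, 0, 0, 0, 0, 0, 0, 0, 0, 0, 1, 1, 1, 1, 0, 1, 0, 0, 0, 0, 0, 0, 0, 0, 0, 1, 0, 1, 0, 0, 1, 1, 0, 0, 0, 0, 0, 0, 0, 1, 0, 0]
def f3_34 : List ℤ := [0, 0, 0, 0, 0, 0, 0, 0, 0, 0, 0, 0, 0, 1, 1, 1, 0, 1, 1, 1, 0, 0, 0, 1, 1, 1, 1, 0, 1, 0, 0, 0, 0, 0, 0, 0, 0, 0, 0, 0, 0, 0, 0, 0, 0, 0, 1, 0, 1, 1, 1, 0, 1, 0, 0]
def f3_35 : List ℤ := [0, 0, 0, 0, 0, 0, 0, 0, 0, 0, 0, 0, 0, 0, 0, 0, 0, 0, 0, 0, 0, 0, 0, 0, 0, 0, 0, 0, 0, 1, 0, 1, 1, 1, 0, 0, 0, 0, 1, 0, 1, 0, 0, 1, 1, 0, 1, 0, 1, 1, 1, 0, 1, 0, 0]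
def f3_36 : List ℤ := [1, 0, 0, 0, 0, 1, 0, 1, 0, 0, 0, 1, 0, 0, 1, 0, 1, 0, 1, 0, 1, 0, 1, 0, 0, 0, 0, 1, 0, 0, 1, 0, 1, 0, 0, 0, 1, 0, 0, 1, 0, 0, 0, 0, 0, 0, 0, 1, 0, 0, 0, 0, 0, 0, 0]
def f3_37 : List ℤ := [1, 0, 0, 0, 0, 0, 1, 0, 0, 0, 1, 0, 1, 0, 1, 1, 1, 1, 0, 1, 0, 1, 0, 1, 0, 0, 0, 0, 1, 0, 1, 1, 0, 1, 0, 0, 1, 1, 0, 0, 1, 0, 0, 0, 0, 0, 0, 1, 0, 0, 1, 0, 0, 1, 0]
def f3_38 : List ℤ := [1, 0, 0, 0, 0, 0, 0, 1, 0, 0, 0, 1, 1, 0, 0, 1, 1, 0, 1, 1, 0, 0, 1, 1, 0, 0, 0, 0, 0, 0, 1, 0, 1, 1, 0, 0, 0, 1, 0, 0, 0, 0, 0, 0, 0, 0, 0, 0, 0, 0, 0, 0, 0, 0, 0]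
def f3_39 : List ℤ := [0, 0, 0, 0, 0, 1, 1, 1, 0, 0, 0, 0, 0, 0, 1, 1, 0, 1, 1, 1, 0, 0, 0, 1, 0, 0, 0, 0, 1, 0, 0, 1, 1, 1, 0, 0, 0, 0, 0, 0, 1, 0, 0, 0, 0, 0, 0, 0, 0, 0, 1, 0, 0, 0, 0]
def f3_40 : List ℤ := [1, 0, 0, 0, 0, 1, 1, 1, 0, 0, 1, 1, 1, 0, 1, 1, 1, 1, 1, 1, 1, 1, 1, 1, 0, 0, 0, 1, 1, 0, 1, 1, 1, 1, 0, 0, 1, 1, 0, 1, 1, 0, 0, 0, 0, 0, 0, 1, 0, 0, 1, 0, 0, 1, 0]
def f3_41 : List ℤ := [0, 0, 0, 0, 0, 0, 0, 0, 0, 0, 1, 1, 1, 0, 0, 0, 1, 1, 1, 1, 0, 0, 0, 0, 0, 0, 0, 1, 1, 0, 0, 0, 0, 0, 0, 0, 1, 1, 0, 0, 0, 0, 0, 0, 0, 0, 0, 0, 0, 0, 1, 0, 0, 0, 0]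
def f3_42 : List ℤ := [0, 0, 0, 0, 0, 1, 1, 1, 0, 0, 1, 1, 1, 0, 0, 0, 0, 0, 0, 0, 1, 1, 1, 1, 0, 0, 0, 1, 1, 0, 0, 0, 0, 0, 0, 0, 0, 0, 0, 1, 1, 0, 0, 0, 0, 0, 0, 0, 0, 0, 0, 0, 0, 1, 0]
def f3_43 : List ℤ := [0, 0, 0, 0, 0, 0, 0, 0, 0, 0, 0, 0, 0, 0, 1, 1, 1, 1, 1, 1, 1, 1, 1, 1, 0, 0, 0, 1, 1, 0, 0, 0, 0, 0, 0, 0, 0, 0, 0, 0, 0, 0, 0, 0, 0, 0, 0, 1, 0, 0, 1, 0, 0, 1, 0]
def f3_44 : List ℤ := [0, 0, 0, 0, 0, 0, 0, 0, 0, 0, 0, 0, 0, 0, 0, 0, 0, 0, 0, 0, 0, 0, 0, 0, 0, 0, 0, 0, 0, 0, 1, 1, 1, 1, 0, 0, 1, 1, 0, 1, 1, 0, 0, 0, 0, 0, 0, 1, 0, 0, 1, 0, 0, 1, 0]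
def f3_45 : List ℤ := [0, 1, 0, 0, 0, 0, 0, 0, 1, 0, 0, 1, 0, 0, 0, 0, 1, 0, 1, 0, 0, 0, 0, 0, 0, 1, 0, 1, 0, 0, 0, 0, 0, 0, 1, 1, 1, 0, 0, 0, 0, 1, 0, 1, 0, 0, 0, 0, 1, 0, 0, 0, 0, 0, 1]
def f3_46 : List ℤ := [0, 1, 0, 0, 0, 0, 0, 0, 1, 1, 1, 0, 1, 0, 0, 0, 1, 1, 0, 1, 0, 0, 0, 0, 1, 0, 1, 0, 1, 0, 0, 0, 0, 0, 1, 1, 1, 1, 0, 0, 0, 1, 1, 0, 1, 0, 0, 0, 1, 1, 1, 0, 0, 0, 0]
def f3_47 : List ℤ := [0, 1, 0, 0, 0, 0, 0, 0, 0, 1, 0, 1, 1, 0, 0, 0, 1, 0, 1, 1, 0, 0, 0, 0, 0, 1, 1, 0, 0, 0, 0, 0, 0, 0, 0, 1, 0, 1, 0, 0, 0, 0, 1, 0, 0, 0, 0, 0, 0, 1, 0, 0, 0, 0, 0]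
def f3_48 : List ℤ := [0, 1, 0, 0, 0, 0, 0, 0, 0, 0, 0, 0, 0, 0, 0, 0, 0, 1, 1, 1, 0, 0, 0, 0, 1, 1, 1, 0, 1, 0, 0, 0, 0, 0, 0, 0, 0, 0, 0, 0, 0, 0, 0, 1, 1, 0, 0, 0, 1, 1, 1, 0, 0, 0, 0]
def f3_49 : List ℤ := [0, 0, 0, 0, 0, 0, 0, 0, 0, 0, 1, 1, 1, 0, 0, 0, 1, 1, 1, 1, 0, 0, 0, 0, 0, 0, 0, 1, 1, 0, 0, 0, 0, 0, 0, 0, 1, 1, 0, 0, 0, 0, 0, 0, 0, 0, 0, 0, 0, 0, 1, 0, 0, 0, 0]
def f3_50 : List ℤ := [0, 1, 0, 0, 0, 0, 0, 0, 1, 1, 1, 1, 1, 0, 0, 0, 1, 1, 1, 1, 0, 0, 0, 0, 1, 1, 1, 1, 1, 0, 0, 0, 0, 0, 1, 1, 1, 1, 0, 0, 0, 1, 1, 1, 1, 0, 0, 0, 1, 1, 1, 0, 0, 0, 1]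
def f3_51 : List ℤ := [0, 0, 0, 0, 0, 0, 0, 0, 1, 1, 1, 1, 1, 0, 0, 0, 0, 0, 0, 0, 0, 0, 0, 0, 1, 1, 1, 1, 1, 0, 0, 0, 0, 0, 0, 0, 0, 0, 0, 0, 0, 1, 1, 1, 1, 0, 0, 0, 0, 0, 0, 0, 0, 0, 1]
def f3_52 : List ℤ := [0, 0, 0, 0, 0, 0, 0, 0, 0, 0, 0, 0, 0, 0, 0, 0, 1, 1, 1, 1, 0, 0, 0, 0, 1, 1, 1, 1, 1, 0, 0, 0, 0, 0, 0, 0, 0, 0, 0, 0, 0, 0, 0, 0, 0, 0, 0, 0, 1, 1, 1, 0, 0, 0, 1]
def f3_53 : List ℤ := [0, 0, 0, 0, 0, 0, 0, 0, 0, 0, 0, 0, 0, 0, 0, 0, 0, 0, 0, 0, 0, 0, 0, 0, 0, 0, 0, 0, 0, 0, 0, 0, 0, 0, 1, 1, 1, 1, 0, 0, 0, 1, 1, 1, 1, 0, 0, 0, 1, 1, 1, 0, 0, 0, 1]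
def f3_54 : List ℤ := [0, 0, 1, 0, 1, 1, 0, 1, 1, 0, 0, 1, 0, 0, 0, 0, 0, 0, 0, 0, 1, 0, 1, 0, 0, 1, 0, 1, 0, 0, 0, 0, 0, 0, 0, 0, 0, 0, 0, 1, 0, 1, 0, 1, 0, 0, 0, 0, 0, 0, 0, 1, 1, 0, 1]
def f3_55 : List ℤ := [0, 0, 1, 1, 0, 0, 1, 0, 1, 1, 1, 0, 1, 0, 0, 0, 0, 0, 0, 0, 0, 1, 0, 1, 1, 0, 1, 0, 1, 0, 0, 0, 0, 0, 0, 0, 0, 0, 1, 0, 1, 1, 1, 0, 1, 0, 0, 0, 0, 0, 0, 1, 0, 1, 0]
def f3_56 : List ℤ := [0, 0, 1, 0, 1, 0, 0, 1, 0, 1, 0, 1, 1, 0, 0, 0, 0, 0, 0, 0, 0, 0, 1, 1, 0, 1, 1, 0, 0, 0, 0, 0, 0, 0, 0, 0, 0, 0, 0, 0, 0, 0, 1, 0, 0, 0, 0, 0, 0, 0, 0, 0, 0, 0, 0]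
def f3_57 : List ℤ := [0, 0, 0, 1, 1, 1, 1, 1, 0, 0, 0, 0, 0, 0, 0, 0, 0, 0, 0, 0, 0, 0, 0, 1, 1, 1, 1, 0, 1, 0, 0, 0, 0, 0, 0, 0, 0, 0, 1, 0, 1, 0, 0, 1, 1, 0, 0, 0, 0, 0, 0, 0, 1, 0, 0]
def f3_58 : List ℤ := [0, 0, 0, 0, 0, 1, 1, 1, 0, 0, 1, 1, 1, 0, 0, 0, 0, 0, 0, 0, 1, 1, 1, 1, 0, 0, 0, 1, 1, 0, 0, 0, 0, 0, 0, 0, 0, 0, 0, 1, 1, 0, 0, 0, 0, 0, 0, 0, 0, 0, 0, 0, 0, 1, 0]
def f3_59 : List ℤ := [0, 0, 0, 0, 0, 0, 0, 0, 1, 1, 1, 1, 1, 0, 0, 0, 0, 0, 0, 0, 0, 0, 0, 0, 1, 1, 1, 1, 1, 0, 0, 0, 0, 0, 0, 0, 0, 0, 0, 0, 0, 1, 1, 1, 1, 0, 0, 0, 0, 0, 0, 0, 0, 0, 1]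
def f3_60 : List ℤ := [0, 0, 1, 1, 1, 1, 1, 1, 1, 1, 1, 1, 1, 0, 0, 0, 0, 0, 0, 0, 1, 1, 1, 1, 1, 1, 1, 1, 1, 0, 0, 0, 0, 0, 0, 0, 0, 0, 1, 1, 1, 1, 1, 1, 1, 0, 0, 0, 0, 0, 0, 1, 1, 1, 1]
def f3_61 : List ℤ := [0, 0, 0, 0, 0, 0, 0, 0, 0, 0, 0, 0, 0, 0, 0, 0, 0, 0, 0, 0, 1, 1, 1, 1, 1, 1, 1, 1, 1, 0, 0, 0, 0, 0, 0, 0, 0, 0, 0, 0, 0, 0, 0, 0, 0, 0, 0, 0, 0, 0, 0, 1, 1, 1, 1]
def f3_62 : List ℤ := [0, 0, 0, 0, 0, 0, 0, 0, 0, 0, 0, 0, 0, 0, 0, 0, 0, 0, 0, 0, 0, 0, 0, 0, 0, 0, 0, 0, 0, 0, 0, 0, 0, 0, 0, 0, 0, 0, 1, 1, 1, 1, 1, 1, 1, 0, 0, 0, 0, 0, 0, 1, 1, 1, 1]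
def f3_63 : List ℤ := [0, 0, 0, 0, 0, 0, 0, 0, 0, 0, 0, 0, 0, 1, 1, 0, 1, 0, 1, 0, 1, 0, 1, 0, 0, 1, 0, 1, 0, 0, 0, 0, 0, 0, 0, 0, 0, 0, 0, 0, 0, 0, 0, 0, 0, 1, 1, 1, 1, 0, 0, 1, 1, 0, 1]
def f3_64 : List ℤ := [0, 0, 0, 0, 0, 0, 0, 0, 0, 0, 0, 0, 0, 1, 1, 1, 1, 1, 0, 1, 0, 1, 0, 1, 1, 0, 1, 0, 1, 0, 0, 0, 0, 0, 0, 0, 0, 0, 0, 0, 0, 0, 0, 0, 0, 1, 1, 1, 1, 1, 1, 1, 0, 1, 0]
def f3_65 : List ℤ := [0, 0, 0, 0, 0, 0, 0, 0, 0, 0, 0, 0, 0, 1, 0, 1, 1, 0, 1, 1, 0, 0, 1, 1, 0, 1, 1, 0, 0, 0, 0, 0, 0, 0, 0, 0, 0, 0, 0, 0, 0, 0, 0, 0, 0, 0, 1, 0, 0, 1, 0, 0, 0, 0, 0]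
def f3_66 : List ℤ := [0, 0, 0, 0, 0, 0, 0, 0, 0, 0, 0, 0, 0, 1, 1, 1, 0, 1, 1, 1, 0, 0, 0, 1, 1, 1, 1, 0, 1, 0, 0, 0, 0, 0, 0, 0, 0, 0, 0, 0, 0, 0, 0, 0, 0, 0, 1, 0, 1, 1, 1, 0, 1, 0, 0]
def f3_67 : List ℤ := [0, 0, 0, 0, 0, 0, 0, 0, 0, 0, 0, 0, 0, 0, 1, 1, 1, 1, 1, 1, 1, 1, 1, 1, 0, 0, 0, 1, 1, 0, 0, 0, 0, 0, 0, 0, 0, 0, 0, 0, 0, 0, 0, 0, 0, 0, 0, 1, 0, 0, 1, 0, 0, 1, 0]
def f3_68 : List ℤ := [0, 0, 0, 0, 0, 0, 0, 0, 0, 0, 0, 0, 0, 0, 0, 0, 1, 1, 1, 1, 0, 0, 0, 0, 1, 1, 1, 1, 1, 0, 0, 0, 0, 0, 0, 0, 0, 0, 0, 0, 0, 0, 0, 0, 0, 0, 0, 0, 1, 1, 1, 0, 0, 0, 1]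
def f3_69 : List ℤ := [0, 0, 0, 0, 0, 0, 0, 0, 0, 0, 0, 0, 0, 0, 0, 0, 0, 0, 0, 0, 1, 1, 1, 1, 1, 1, 1, 1, 1, 0, 0, 0, 0, 0, 0, 0, 0, 0, 0, 0, 0, 0, 0, 0, 0, 0, 0, 0, 0, 0, 0, 1, 1, 1, 1]
def f3_70 : List ℤ := [0, 0, 0, 0, 0, 0, 0, 0, 0, 0, 0, 0, 0, 1, 1, 1, 1, 1, 1, 1, 1, 1, 1, 1, 1, 1, 1, 1, 1, 0, 0, 0, 0, 0, 0, 0, 0, 0, 0, 0, 0, 0, 0, 0, 0, 1, 1, 1, 1, 1, 1, 1, 1, 1, 1]
def f3_71 : List ℤ := [0, 0, 0, 0, 0, 0, 0, 0, 0, 0, 0, 0, 0, 0, 0, 0, 0, 0, 0, 0, 0, 0, 0, 0, 0, 0, 0, 0, 0, 0, 0, 0, 0, 0, 0, 0, 0, 0, 0, 0, 0, 0, 0, 0, 0, 1, 1, 1, 1, 1, 1, 1, 1, 1, 1]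
def f3_72 : List ℤ := [0, 0, 0, 0, 0, 0, 0, 0, 0, 0, 0, 0, 0, 0, 0, 0, 0, 0, 0, 0, 0, 0, 0, 0, 0, 0, 0, 0, 0, 1, 1, 0, 1, 0, 1, 1, 1, 0, 0, 1, 0, 1, 0, 1, 0, 1, 1, 1, 1, 0, 0, 1, 1, 0, 1]
def f3_73 : List ℤ := [0, 0, 0, 0, 0, 0, 0, 0, 0, 0, 0, 0, 0, 0, 0, 0, 0, 0, 0, 0, 0, 0, 0, 0, 0, 0, 0, 0, 0, 1, 1, 1, 0, 1, 1, 1, 1, 1, 1, 0, 1, 1, 1, 0, 1, 1, 1, 1, 1, 1, 1, 1, 0, 1, 0]
def f3_74 : List ℤ := [0, 0, 0, 0, 0, 0, 0, 0, 0, 0, 0, 0, 0, 0, 0, 0, 0, 0, 0, 0, 0, 0, 0, 0, 0, 0, 0, 0, 0, 0, 1, 0, 1, 1, 0, 1, 0, 1, 0, 0, 0, 0, 1, 0, 0, 0, 1, 0, 0, 1, 0, 0, 0, 0, 0]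
def f3_75 : List ℤ := [0, 0, 0, 0, 0, 0, 0, 0, 0, 0, 0, 0, 0, 0, 0, 0, 0, 0, 0, 0, 0, 0, 0, 0, 0, 0, 0, 0, 0, 1, 0, 1, 1, 1, 0, 0, 0, 0, 1, 0, 1, 0, 0, 1, 1, 0, 1, 0, 1, 1, 1, 0, 1, 0, 0]
def f3_76 : List ℤ := [0, 0, 0, 0, 0, 0, 0, 0, 0, 0, 0, 0, 0, 0, 0, 0, 0, 0, 0, 0, 0, 0, 0, 0, 0, 0, 0, 0, 0, 0, 1, 1, 1, 1, 0, 0, 1, 1, 0, 1, 1, 0, 0, 0, 0, 0, 0, 1, 0, 0, 1, 0, 0, 1, 0]
def f3_77 : List ℤ := [0, 0, 0, 0, 0, 0, 0, 0, 0, 0, 0, 0, 0, 0, 0, 0, 0, 0, 0, 0, 0, 0, 0, 0, 0, 0, 0, 0, 0, 0, 0, 0, 0, 0, 1, 1, 1, 1, 0, 0, 0, 1, 1, 1, 1, 0, 0, 0, 1, 1, 1, 0, 0, 0, 1]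
def f3_78 : List ℤ := [0, 0, 0, 0, 0, 0, 0, 0, 0, 0, 0, 0, 0, 0, 0, 0, 0, 0, 0, 0, 0, 0, 0, 0, 0, 0, 0, 0, 0, 0, 0, 0, 0, 0, 0, 0, 0, 0, 1, 1, 1, 1, 1, 1, 1, 0, 0, 0, 0, 0, 0, 1, 1, 1, 1]
def f3_79 : List ℤ := [0, 0, 0, 0, 0, 0, 0, 0, 0, 0, 0, 0, 0, 0, 0, 0, 0, 0, 0, 0, 0, 0, 0, 0, 0, 0, 0, 0, 0, 0, 0, 0, 0, 0, 0, 0, 0, 0, 0, 0, 0, 0, 0, 0, 0, 1, 1, 1, 1, 1, 1, 1, 1, 1, 1]
def f3_80 : List ℤ := [0, 0, 0, 0, 0, 0, 0, 0, 0, 0, 0, 0, 0, 0, 0, 0, 0, 0, 0, 0, 0, 0, 0, 0, 0, 0, 0, 0, 0, 1, 1, 1, 1, 1, 1, 1, 1, 1, 1, 1, 1, 1, 1, 1, 1, 1, 1, 1, 1, 1, 1, 1, 1, 1, 1]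
def f3_81 : List ℤ := [5, 5, 5, 2, 1, 1, 1, 0, 5, 1, 1, 0, 0, 5, 5, 1, 4, 1, 0, 0, 1, 1, 0, 0, 1, 0, 0, 0, 0, 5, 4, 1, 0, 0, 5, 4, 4, 0, 1, 0, 0, 4, 0, 0, 0, 5, 4, 4, 4, 0, 0, 4, 0, 0, 0]
def f3_82 : List ℤ := [5, 5, 5, 0, 1, 1, 0, 0, 5, 0, 0, 0, 0, 5, 5, 0, 4, 0, 0, 0, 1, 0, 0, 0, 0, 0, 0, 0, 0, 5, 4, 0, 0, 0, 5, 4, 4, 0, 0, 0, 0, 4, 0, 0, 0, 5, 4, 4, 4, 0, 0, 4, 0, 0, 0]
def f3_83 : List ℤ := [5, 5, 5, 2, 0, 0, 1, 0, 5, 1, 1, 0, 0, 5, 5, 1, 4, 1, 0, 0, 0, 1, 0, 0, 1, 0, 0, 0, 0, 5, 4, 1, 0, 0, 5, 4, 4, 0, 1, 0, 0, 4, 0, 0, 0, 5, 4, 4, 4, 0, 0, 4, 0, 0, 0]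
def f3_84 : List ℤ := [5, 5, 5, 0, 1, 0, 0, 0, 0, 1, 0, 0, 0, 5, 0, 1, 4, 0, 0, 0, 0, 0, 0, 0, 0, 0, 0, 0, 0, 0, 4, 0, 0, 0, 0, 4, 0, 0, 0, 0, 0, 0, 0, 0, 0, 0, 4, 0, 0, 0, 0, 0, 0, 0, 0]
def f3_85 : List ℤ := [0, 5, 0, 2, 1, 1, 1, 0, 0, 0, 0, 0, 0, 5, 5, 1, 0, 1, 0, 0, 0, 0, 0, 0, 1, 0, 0, 0, 0, 5, 0, 1, 0, 0, 0, 0, 0, 0, 1, 0, 0, 0, 0, 0, 0, 0, 4, 0, 4, 0, 0, 0, 0, 0, 0]
def f3_86 : List ℤ := [5, 0, 0, 0, 0, 1, 1, 0, 0, 0, 1, 0, 0, 0, 5, 1, 4, 1, 0, 0, 1, 1, 0, 0, 0, 0, 0, 0, 0, 0, 4, 1, 0, 0, 0, 0, 4, 0, 0, 0, 0, 0, 0, 0, 0, 0, 0, 4, 0, 0, 0, 0, 0, 0, 0]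
def f3_87 : List ℤ := [0, 5, 0, 0, 0, 0, 0, 0, 5, 1, 1, 0, 0, 0, 0, 0, 4, 1, 0, 0, 0, 0, 0, 0, 1, 0, 0, 0, 0, 0, 0, 0, 0, 0, 5, 4, 4, 0, 0, 0, 0, 4, 0, 0, 0, 0, 0, 0, 4, 0, 0, 0, 0, 0, 0]
def f3_88 : List ℤ := [0, 0, 5, 2, 1, 1, 1, 0, 5, 1, 1, 0, 0, 0, 0, 0, 0, 0, 0, 0, 1, 1, 0, 0, 1, 0, 0, 0, 0, 0, 0, 0, 0, 0, 0, 0, 0, 0, 1, 0, 0, 4, 0, 0, 0, 0, 0, 0, 0, 0, 0, 4, 0, 0, 0]
def f3_89 : List ℤ := [0, 0, 0, 0, 0, 0, 0, 0, 0, 0, 0, 0, 0, 5, 5, 1, 4, 1, 0, 0, 1, 1, 0, 0, 1, 0, 0, 0, 0, 0, 0, 0, 0, 0, 0, 0, 0, 0, 0, 0, 0, 0, 0, 0, 0, 5, 4, 4, 4, 0, 0, 4, 0, 0, 0]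
def f3_90 : List ℤ := [0, 0, 0, 0, 0, 0, 0, 0, 0, 0, 0, 0, 0, 0, 0, 0, 0, 0, 0, 0, 0, 0, 0, 0, 0, 0, 0, 0, 0, 5, 4, 1, 0, 0, 5, 4, 4, 0, 1, 0, 0, 4, 0, 0, 0, 5, 4, 4, 4, 0, 0, 4, 0, 0, 0]

def FL3 : List (List ℤ) := [f3_0, f3_1, f3_2, f3_3, f3_4, f3_5, f3_6, f3_7, f3_8, f3_9, f3_10, f3_11, f3_12, f3_13, f3_14, f3_15, f3_16, f3_17, f3_18, f3_19, f3_20, f3_21, f3_22, f3_23, f3_24, f3_25, f3_26, f3_27, f3_28, f3_29, f3_30, f3_31, f3_32, f3_33, f3_34, f3_35, f3_36, f3_37, f3_38, f3_39, f3_40, f3_41, f3_42, f3_43, f3_44, f3_45, f3_46, f3_47, f3_48, f3_49, f3_50, f3_51, f3_52, f3_53, f3_54, f3_55, f3_56, f3_57, f3_58, f3_59, f3_60, f3_61, f3_62, f3_63, f3_64, f3_65, f3_66, f3_67, f3_68, f3_69, f3_70, f3_71, f3_72, f3_73, f3_74, f3_75, f3_76, f3_77, f3_78, f3_79, f3_80, f3_81, f3_82, f3_83,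 f3_84, f3_85, f3_86, f3_87, f3_88, f3_89, f3_90]

def C3 : (Fin 9 × Fin 9) ⊕ Option (Fin 9) → List ℤ
  | .inl (i, j) => CL3.getD (9 * i + j) []
  | .inr none => CL3.getD 81 []
  | .inr (some i) => CL3.getD (82 + i) []

def FT : (Fin 9 × Fin 9) ⊕ Option (Fin 9) → List ℤ
  | .inl (i, j) => FL3.getD (9 * i + j) []
  | .inr none => FL3.getD 81 []
  | .inr (some i) => FL3.getD (82 + i) []

theorem FT_eq : ∀ k, RL3.map (fun r : ℕ × ℕ => F3 (bits r.1) r.2 k) = FT k := by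
  decide +kernel

theorem cert3a : ∀ k0 k, (List.zipWith (fun c f => c * f) (C3 k0) (FT k)).sum =
    (if k = k0 then 43 else 0) + (if k = sw k0 then 43 else 0) := by
  decide +kernel

theorem cert3 : ∀ k0 k, (List.zipWith (fun c (r : ℕ × ℕ) => c * F3 (bits r.1) r.2 k) (C3 k0) RL3).sum =
    (if k = k0 then 43 else 0) + (if k = sw k0 then 43 else 0) := by
  intro k0 k
  rw [← cert3a, ← FT_eq, List.zipWith_map_right]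

theorem RL3_spec : ∀ r ∈ RL3, G0.val (bits r.1) r.2 = 0 ∧ r.2 ≤ 5 := by
  decide +kernel

theorem h3 (B : Fin 9 → Fin 9 → ℝ) (c0 : ℝ) (c : Fin 9 → ℝ) (hs : ∀ i j, B i j = B j i)
    (h : ∀ x t, G0.val x t = 0 → t ≤ 5 → cx B x + t * bx c0 c x = 0) :
    (∀ i j, B i j = 0) ∧ c0 = 0 ∧ ∀ i, c i = 0 :=
  h3_of_cert (fun r : ℕ × ℕ => bits r.1) (fun r => r.2) RL3 C3 _ (by norm_num) cert3 B c0 c hs
    (fun r hr => h _ _ (RL3_spec r hr).1 (RL3_spec r hr).2)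

theorem lower (M : ℕ) (hM : 5 ≤ M) (m : ℕ) (hm : m + 1 < (9 + M + 1).choose 2) :
    ∃ φ : Option (Fin 9 ⊕ Fin M) → Finset (Fin 9 ⊕ Fin M) → ℝ, Function.Injective φ ∧
      ∀ ψ : Option (Fin 9 ⊕ Fin M) → Fin m → ℝ,
        ¬ ∀ x y, ∑ k, |ψ x k - ψ y k| = ∑ S, |φ x S - φ y S| :=
  G0.lower 5 M hM hV hX h1 h2 h3 m hm

end Pool.Agent.Lib.MP_01798d_co
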